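import Mathlib

set_option autoImplicit false
set_option linter.unusedSectionVars false

open scoped InnerProductSpace

noncomputable section

namespace Pool.Agent.Helper56

section Blocks

variable (E : Type*) [NormedAddCommGroup E] [InnerProductSpace ℂ E] [CompleteSpace E]

/-- The direct sum of two copies of a Hilbert space. -/
abbrev H2 : Type _ := PiLp 2 (fun _ : Fin 2 => E)

variable {E}

/-- Inclusion of a summand. -/
def inc (i : Fin 2) : E →L[ℂ] H2 E :=
  (PiLp.continuousLinearEquiv 2 ℂ (fun _ : Fin 2 => E)).symm.toContinuousLinearMap ∘L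
    ContinuousLinearMap.single ℂ (fun _ : Fin 2 => E) i

/-- Projection to a summand. -/
def prj (i : Fin 2) : H2 E →L[ℂ] E := PiLp.proj 2 (fun _ : Fin 2 => E) i

lemma prj_apply (i : Fin 2) (x : H2 E) : prj i x = x i := rfl

lemma inc_apply (i j : Fin 2) (x : E) : (inc i x : H2 E) j = if j = i then x else 0 := by
  simp only [inc]
  change (Pi.single i x : (j : Fin 2) → E) j = _
  rw [Pi.single_apply]

lemma prj_inc (i j : Fin 2) (x : E) : prj i (inc j x) = if i = j then x else 0 := by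
  rw [prj_apply, inc_apply]

lemma sum_inc_prj (x : H2 E) : inc 0 (prj 0 x) + inc 1 (prj 1 x) = x := by
  ext j
  rw [PiLp.add_apply, inc_apply, inc_apply, prj_apply, prj_apply]
  fin_cases j <;> simp

lemma inner_inc (i : Fin 2) (x : E) (y : H2 E) : ⟪inc i x, y⟫_ℂ = ⟪x, prj i y⟫_ℂ := by
  rw [PiLp.inner_apply]
  simp only [inc_apply, prj_apply]
  fin_cases i <;> simp

lemma adjoint_inc (i : Fin 2) : ContinuousLinearMap.adjoint (inc i : E →L[ℂ] H2 E) = prj i := by
  symm
  rw [ContinuousLinearMap.eq_adjoint_iff]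
  intro x y
  rw [← inner_conj_symm, ← inner_inc, inner_conj_symm]

lemma adjoint_prj (i : Fin 2) : ContinuousLinearMap.adjoint (prj i : H2 E →L[ℂ] E) = inc i := by
  rw [← adjoint_inc, ContinuousLinearMap.adjoint_adjoint]

/-- Matrix entries. -/
def blk (A : H2 E →L[ℂ] H2 E) (i j : Fin 2) : E →L[ℂ] E := prj i ∘L A ∘L inc j

lemma blk_apply (A : H2 E →L[ℂ] H2 E) (i j : Fin 2) (x : E) : blk A i j x = prj i (A (inc j x)) :=
  rfl

lemma blk_ext {A B : H2 E →L[ℂ] H2 E} (h : ∀ i j, blk A i j = blk B i j) : A = B := by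
  ext1 x
  have hx : ∀ C : H2 E →L[ℂ] H2 E, C x = inc 0 (blk C 0 0 (prj 0 x) + blk C 0 1 (prj 1 x)) +
      inc 1 (blk C 1 0 (prj 0 x) + blk C 1 1 (prj 1 x)) := by
    intro C
    have h1 : ∀ i, prj i (C x) = blk C i 0 (prj 0 x) + blk C i 1 (prj 1 x) := by
      intro i
      conv_lhs => rw [← sum_inc_prj x]
      rw [map_add, map_add]
      rfl
    rw [← h1, ← h1, sum_inc_prj]
  rw [hx A, hx B]
  simp only [h]

lemma blk_add (A B : H2 E →L[ℂ] H2 E) (i j : Fin 2) : blk (A + B) i j = blk A i j + blk B i j := by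
  ext1 x
  simp [blk_apply]

lemma blk_sub (A B : H2 E →L[ℂ] H2 E) (i j : Fin 2) : blk (A - B) i j = blk A i j - blk B i j := by
  ext1 x
  simp [blk_apply]

lemma blk_smul (c : ℂ) (A : H2 E →L[ℂ] H2 E) (i j : Fin 2) : blk (c • A) i j = c • blk A i j := by
  ext1 x
  simp [blk_apply]

lemma blk_zero (i j : Fin 2) : blk (0 : H2 E →L[ℂ] H2 E) i j = 0 := by
  ext1 x
  simp [blk_apply]

lemma blk_one (i j : Fin 2) : blk (1 : H2 E →L[ℂ] H2 E) i j = if i = j then 1 else 0 := by
  ext1 x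
  rw [blk_apply, one_apply_eq_self, prj_inc]
  split_ifs <;> rfl

lemma blk_mul (A B : H2 E →L[ℂ] H2 E) (i j : Fin 2) :
    blk (A * B) i j = blk A i 0 * blk B 0 j + blk A i 1 * blk B 1 j := by
  ext1 x
  rw [blk_apply, mul_apply_eq_comp]
  conv_lhs => rw [← sum_inc_prj (B (inc j x))]
  rw [map_add, map_add]
  rfl

lemma blk_star (A : H2 E →L[ℂ] H2 E) (i j : Fin 2) : blk (star A) i j = star (blk A j i) := by
  rw [ContinuousLinearMap.star_eq_adjoint, ContinuousLinearMap.star_eq_adjoint, blk, blk,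
    ContinuousLinearMap.adjoint_comp, ContinuousLinearMap.adjoint_comp, adjoint_prj, adjoint_inc,
    ContinuousLinearMap.comp_assoc]

/-- The operator with given matrix entries. -/
def mk (a b c d : E →L[ℂ] E) : H2 E →L[ℂ] H2 E :=
  inc 0 ∘L a ∘L prj 0 + inc 0 ∘L b ∘L prj 1 + inc 1 ∘L c ∘L prj 0 + inc 1 ∘L d ∘L prj 1

lemma blk_mk00 (a b c d : E →L[ℂ] E) : blk (mk a b c d) 0 0 = a := by
  ext1 x
  simp [blk_apply, mk, prj_inc]

lemma blk_mk01 (a b c d : E →L[ℂ] E) : blk (mk a b c d) 0 1 = b := by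
  ext1 x
  simp [blk_apply, mk, prj_inc]

lemma blk_mk10 (a b c d : E →L[ℂ] E) : blk (mk a b c d) 1 0 = c := by
  ext1 x
  simp [blk_apply, mk, prj_inc]

lemma blk_mk11 (a b c d : E →L[ℂ] E) : blk (mk a b c d) 1 1 = d := by
  ext1 x
  simp [blk_apply, mk, prj_inc]

lemma mk_ext {A : H2 E →L[ℂ] H2 E} {a b c d : E →L[ℂ] E} (h00 : blk A 0 0 = a)
    (h01 : blk A 0 1 = b) (h10 : blk A 1 0 = c) (h11 : blk A 1 1 = d) : A = mk a b c d := by
  apply blk_ext
  intro i j
  fin_cases i <;> fin_cases j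
  · simpa [blk_mk00] using h00
  · simpa [blk_mk01] using h01
  · simpa [blk_mk10] using h10
  · simpa [blk_mk11] using h11

lemma continuous_mk_b : Continuous (fun b : E →L[ℂ] E => mk 0 b 0 0) := by
  unfold mk
  fun_prop

end Blocks

end Pool.Agent.Helper56
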