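import Mathlib

set_option autoImplicit false

open Filter Topology
open scoped InnerProductSpace

noncomputable section

namespace Pool.Agent.Helper56

variable {E : Type*} [NormedAddCommGroup E] [InnerProductSpace ℂ E] [CompleteSpace E]

/-- Self-adjoint operators commuting with a commutative star closed space of operators having a
cyclic vector commute. -/
lemma comm_sa (A : Submodule ℂ (E →L[ℂ] E))
    (hmul : ∀ a ∈ A, ∀ b ∈ A, a * b ∈ A) (hstar : ∀ a ∈ A, star a ∈ A)
    (hcomm : ∀ a ∈ A, ∀ b ∈ A, a * b = b * a)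
    (χ : E) (hcyc : (A.map (ContinuousLinearMap.apply ℂ E χ).toLinearMap).topologicalClosure = ⊤)
    (X Y : E →L[ℂ] E) (hXs : star X = X) (hYs : star Y = Y)
    (hX : ∀ a ∈ A, X * a = a * X) (hY : ∀ a ∈ A, Y * a = a * Y) : X * Y = Y * X := by
  -- approximation
  have hseq : ∃ b : ℕ → E →L[ℂ] E, (∀ n, b n ∈ A) ∧ Tendsto (fun n => b n χ) atTop (𝓝 (Y χ)) := by
    have h1 : Y χ ∈ closure ((A.map (ContinuousLinearMap.apply ℂ E χ).toLinearMap : Submodule ℂ E) : Set E) := by
      have : Y χ ∈ (A.map (ContinuousLinearMap.apply ℂ E χ).toLinearMap).topologicalClosure := by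
        rw [hcyc]; trivial
      exact this
    rw [mem_closure_iff_seq_limit] at h1
    obtain ⟨u, hu, hlim⟩ := h1
    have : ∀ n, ∃ b ∈ A, b χ = u n := fun n => by
      obtain ⟨b, hb, hb'⟩ := hu n
      exact ⟨b, hb, hb'⟩
    choose b hb hb' using this
    refine ⟨b, hb, ?_⟩
    simpa [hb'] using hlim
  obtain ⟨b, hbA, hblim⟩ := hseq
  have hnorm : ∀ n, ‖star (b n) χ - Y χ‖ = ‖b n χ - Y χ‖ := by
    intro n
    have key : ∀ T : E →L[ℂ] E, T * star T = star T * T → ‖star T χ‖ = ‖T χ‖ := by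
      intro T hT
      have h1 : ⟪star T χ, star T χ⟫_ℂ = ⟪T χ, T χ⟫_ℂ := by
        have e1 : ⟪star T χ, star T χ⟫_ℂ = ⟪χ, (T * star T) χ⟫_ℂ := by
          rw [mul_apply_eq_comp, ContinuousLinearMap.star_eq_adjoint,
            ContinuousLinearMap.adjoint_inner_left]
        have e2 : ⟪T χ, T χ⟫_ℂ = ⟪χ, (star T * T) χ⟫_ℂ := by
          rw [mul_apply_eq_comp, ContinuousLinearMap.star_eq_adjoint,
            ContinuousLinearMap.adjoint_inner_right]
        rw [e1, e2, hT]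
      rw [inner_self_eq_norm_sq_to_K, inner_self_eq_norm_sq_to_K] at h1
      have h2 : ‖star T χ‖ ^ 2 = ‖T χ‖ ^ 2 := by exact_mod_cast h1
      exact (sq_eq_sq₀ (norm_nonneg _) (norm_nonneg _)).1 h2
    have h := key (b n - Y) (by
      rw [star_sub, hYs, sub_mul, mul_sub, mul_sub, sub_mul, mul_sub, mul_sub,
        hY _ (hbA n), hY _ (hstar _ (hbA n)), hcomm _ (hbA n) _ (hstar _ (hbA n))]
      abel)
    simpa [star_sub, hYs] using h
  have hblim' : Tendsto (fun n => star (b n) χ) atTop (𝓝 (Y χ)) := by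
    rw [tendsto_iff_norm_sub_tendsto_zero] at hblim ⊢
    simpa [hnorm] using hblim
  have claim1 : ∀ c ∈ A, ⟪c (Y χ), X χ⟫_ℂ = ⟪c (X χ), Y χ⟫_ℂ := by
    intro c hc
    have h1 : Tendsto (fun n => ⟪c (b n χ), X χ⟫_ℂ) atTop (𝓝 ⟪c (Y χ), X χ⟫_ℂ) :=
      ((c.continuous.tendsto _).comp hblim).inner tendsto_const_nhds
    have h2 : Tendsto (fun n => ⟪c (X χ), star (b n) χ⟫_ℂ) atTop (𝓝 ⟪c (X χ), Y χ⟫_ℂ) :=
      tendsto_const_nhds.inner hblim'
    have h3 : ∀ n, ⟪c (b n χ), X χ⟫_ℂ = ⟪c (X χ), star (b n) χ⟫_ℂ := by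
      intro n
      have e1 : ⟪c (X χ), star (b n) χ⟫_ℂ = ⟪(b n * c * X) χ, χ⟫_ℂ := by
        rw [ContinuousLinearMap.star_eq_adjoint, ContinuousLinearMap.adjoint_inner_right]
        rfl
      have e2 : b n * c * X = X * (c * b n) := by
        rw [hcomm _ (hbA n) _ hc, hX _ (hmul _ hc _ (hbA n))]
      have e3 : ⟪(X * (c * b n)) χ, χ⟫_ℂ = ⟪c (b n χ), X χ⟫_ℂ := by
        have : ⟪(X * (c * b n)) χ, χ⟫_ℂ = ⟪(star X) ((c * b n) χ), χ⟫_ℂ := by
          rw [hXs]; rfl
        rw [this, ContinuousLinearMap.star_eq_adjoint, ContinuousLinearMap.adjoint_inner_left]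
        rfl
      rw [e1, e2, e3]
    exact tendsto_nhds_unique h1 (h2.congr (fun n => (h3 n).symm))
  have claim2 : ∀ a ∈ A, ∀ d ∈ A, ⟪(X * Y) (a χ), d χ⟫_ℂ = ⟪(Y * X) (a χ), d χ⟫_ℂ := by
    intro a ha d hd
    have e1 : ⟪(X * Y) (a χ), d χ⟫_ℂ = ⟪(star d * a) (Y χ), X χ⟫_ℂ := by
      have s1 : (X * Y) (a χ) = (star X) ((Y * a) χ) := by rw [hXs]; rfl
      have s2 : X (d χ) = d (X χ) := by
        change (X * d) χ = (d * X) χ
        rw [hX d hd]
      rw [s1, ContinuousLinearMap.star_eq_adjoint, ContinuousLinearMap.adjoint_inner_left, s2,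
        hY a ha, mul_apply_eq_comp, mul_apply_eq_comp, ContinuousLinearMap.star_eq_adjoint,
        ContinuousLinearMap.adjoint_inner_left]
    have e2 : ⟪(Y * X) (a χ), d χ⟫_ℂ = ⟪(star d * a) (X χ), Y χ⟫_ℂ := by
      have s1 : (Y * X) (a χ) = (star Y) ((X * a) χ) := by rw [hYs]; rfl
      have s2 : Y (d χ) = d (Y χ) := by
        change (Y * d) χ = (d * Y) χ
        rw [hY d hd]
      rw [s1, ContinuousLinearMap.star_eq_adjoint, ContinuousLinearMap.adjoint_inner_left, s2,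
        hX a ha, mul_apply_eq_comp, mul_apply_eq_comp, ContinuousLinearMap.star_eq_adjoint,
        ContinuousLinearMap.adjoint_inner_left]
    rw [e1, e2]
    exact claim1 _ (hmul _ (hstar _ hd) _ ha)
  have hdense : Dense ((A.map (ContinuousLinearMap.apply ℂ E χ).toLinearMap : Submodule ℂ E) : Set E) :=
    Submodule.dense_iff_topologicalClosure_eq_top.2 hcyc
  have claim3 : ∀ a ∈ A, (X * Y) (a χ) = (Y * X) (a χ) := by
    intro a ha
    refine hdense.eq_of_inner_left (𝕜 := ℂ) ?_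
    rintro v ⟨d, hd, rfl⟩
    exact claim2 a ha d hd
  ext1 v
  have hcl : IsClosed {v : E | (X * Y) v = (Y * X) v} :=
    isClosed_eq (X * Y).continuous (Y * X).continuous
  have : closure ((A.map (ContinuousLinearMap.apply ℂ E χ).toLinearMap : Submodule ℂ E) : Set E) ⊆
      {v : E | (X * Y) v = (Y * X) v} := by
    refine hcl.closure_subset_iff.2 ?_
    rintro v ⟨a, ha, rfl⟩
    exact claim3 a ha
  exact this (hdense v)

lemma comm_of_cyclic (A : Submodule ℂ (E →L[ℂ] E))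
    (hmul : ∀ a ∈ A, ∀ b ∈ A, a * b ∈ A) (hstar : ∀ a ∈ A, star a ∈ A)
    (hcomm : ∀ a ∈ A, ∀ b ∈ A, a * b = b * a)
    (χ : E) (hcyc : (A.map (ContinuousLinearMap.apply ℂ E χ).toLinearMap).topologicalClosure = ⊤)
    (X Y : E →L[ℂ] E)
    (hX : ∀ a ∈ A, X * a = a * X) (hY : ∀ a ∈ A, Y * a = a * Y) : X * Y = Y * X := by
  have hst : ∀ Z : E →L[ℂ] E, (∀ a ∈ A, Z * a = a * Z) → ∀ a ∈ A, star Z * a = a * star Z := by
    intro Z hZ a ha
    have := hZ (star a) (hstar a ha)
    have h2 := congrArg star this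
    rw [star_mul, star_mul, star_star] at h2
    exact h2.symm
  have hre : ∀ Z : E →L[ℂ] E, (∀ a ∈ A, Z * a = a * Z) →
      ∀ a ∈ A, (Z + star Z) * a = a * (Z + star Z) := by
    intro Z hZ a ha
    rw [add_mul, mul_add, hZ a ha, hst Z hZ a ha]
  have him : ∀ Z : E →L[ℂ] E, (∀ a ∈ A, Z * a = a * Z) →
      ∀ a ∈ A, (Complex.I • (Z - star Z)) * a = a * (Complex.I • (Z - star Z)) := by
    intro Z hZ a ha
    rw [smul_mul_assoc, mul_smul_comm, sub_mul, mul_sub, hZ a ha, hst Z hZ a ha]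
  have hres : ∀ Z : E →L[ℂ] E, star (Z + star Z) = Z + star Z := by
    intro Z; rw [star_add, star_star, add_comm]
  have hims : ∀ Z : E →L[ℂ] E, star (Complex.I • (Z - star Z)) = Complex.I • (Z - star Z) := by
    intro Z
    rw [star_smul, star_sub, star_star]
    simp only [RCLike.star_def, Complex.conj_I, smul_sub, neg_smul]
    abel
  have hdec : ∀ Z : E →L[ℂ] E, Z = (1 / 2 : ℂ) • ((Z + star Z) - Complex.I • (Complex.I • (Z - star Z))) := by
    intro Z
    rw [smul_smul, Complex.I_mul_I, neg_one_smul, sub_neg_eq_add]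
    have : Z + star Z + (Z - star Z) = (2 : ℂ) • Z := by
      rw [two_smul]; abel
    rw [this, smul_smul]
    norm_num
  have c1 : Commute (X + star X) (Y + star Y) :=
    comm_sa A hmul hstar hcomm χ hcyc _ _ (hres X) (hres Y) (hre X hX) (hre Y hY)
  have c2 : Commute (X + star X) (Complex.I • (Y - star Y)) :=
    comm_sa A hmul hstar hcomm χ hcyc _ _ (hres X) (hims Y) (hre X hX) (him Y hY)
  have c3 : Commute (Complex.I • (X - star X)) (Y + star Y) :=
    comm_sa A hmul hstar hcomm χ hcyc _ _ (hims X) (hres Y) (him X hX) (hre Y hY)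
  have c4 : Commute (Complex.I • (X - star X)) (Complex.I • (Y - star Y)) :=
    comm_sa A hmul hstar hcomm χ hcyc _ _ (hims X) (hims Y) (him X hX) (him Y hY)
  have c : Commute ((1 / 2 : ℂ) • ((X + star X) - Complex.I • (Complex.I • (X - star X))))
      ((1 / 2 : ℂ) • ((Y + star Y) - Complex.I • (Complex.I • (Y - star Y)))) := by
    apply Commute.smul_left
    apply Commute.smul_right
    apply Commute.sub_left
    · exact Commute.sub_right c1 (c2.smul_right _)
    · exact (Commute.sub_right c3 (c4.smul_right _)).smul_left _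
  rw [← hdec X, ← hdec Y] at c
  exact c

end Pool.Agent.Helper56
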