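import Pool.Agent.Helper56.Core

set_option autoImplicit false
set_option linter.deprecated false

open MeasureTheory ENNReal Filter Topology
open scoped InnerProductSpace

noncomputable section

namespace Pool.Agent.Helper56

lemma norm_U (η : ℝ) (y : K) : ‖U η y‖ = ‖y‖ := by
  have e1 : ⟪U η y, U η y⟫_ℂ = ⟪y, y⟫_ℂ := by
    have e3 : ⟪y, (star (U η)) (U η y)⟫_ℂ = ⟪U η y, U η y⟫_ℂ := by
      rw [ContinuousLinearMap.star_eq_adjoint, ContinuousLinearMap.adjoint_inner_right]
    rw [← e3, star_U]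
    change ⟪y, (U (-η) * U η) y⟫_ℂ = _
    rw [U_neg_mul]
    rfl
  rw [inner_self_eq_norm_sq_to_K, inner_self_eq_norm_sq_to_K] at e1
  have e4 : ‖U η y‖ ^ 2 = ‖y‖ ^ 2 := by exact_mod_cast e1
  exact (sq_eq_sq₀ (norm_nonneg _) (norm_nonneg _)).1 e4

/-- The masa `D` contains no nonzero rank one operator. -/
lemma rankOne_not_mem_D (g : K) (h : InnerProductSpace.rankOne ℂ g g ∈ D) : g = 0 := by
  have h1 : ∀ η : ℝ, ⟪g, U η g⟫_ℂ • g = ⟪g, g⟫_ℂ • U η g := by
    intro η
    have h2 := D_comm _ _ h (U_mem_D η)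
    have h3 := congrArg (fun A : K →L[ℂ] K => A g) h2
    simpa [mul_apply_eq_comp, InnerProductSpace.rankOne_apply] using h3
  have h2 : Tendsto (fun η : ℝ => ⟪g, U η g⟫_ℂ • g) atTop (𝓝 0) := by
    have := ((U_weak g g).mono_left atTop_le_cocompact).smul_const g
    rwa [zero_smul] at this
  simp only [h1] at h2
  rw [tendsto_zero_iff_norm_tendsto_zero] at h2
  simp only [norm_smul, norm_U] at h2
  have h3 := tendsto_nhds_unique h2 tendsto_const_nhds
  have h4 : ‖⟪g, g⟫_ℂ‖ * ‖g‖ = 0 := h3.symm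
  rcases mul_eq_zero.1 h4 with h5 | h5
  · rw [norm_eq_zero, inner_self_eq_zero] at h5
    exact h5
  · exact norm_eq_zero.1 h5

lemma sub_P_mem_D (t : ℝ) : 1 - P t ∈ D := by
  intro s
  rw [sub_mul, mul_sub, one_mul, mul_one, P_mem_D t s]

/-- Corners of triangular algebras above `T0` stay in the nest algebra. -/
theorem corner_mem_AlgN (T : Subalgebra ℂ (H2 K →L[ℂ] H2 K)) (h0 : T0 ≤ T)
    (hT : Set.centralizer (dg T) = dg T) {A : H2 K →L[ℂ] H2 K} (hA : A ∈ T) :
    blk A 0 0 ∈ AlgN := by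
  have hdg : dg T = DD := by rw [dg_eq_of_le h0 T0_tri hT, dg_T0]
  intro t
  ext1 x
  by_contra hne
  set Y := blk A 0 0 with hY
  set u : K := P t x with hu
  set w : K := Y u with hw
  set g : K := (1 - P t) w with hg
  have hg' : g = w - P t w := by rw [hg]; simp
  have hg0 : g ≠ 0 := by
    intro h
    apply hne
    rw [hg'] at h
    have := (sub_eq_zero.1 h).symm
    simpa [mul_apply_eq_comp] using this
  set R : K →L[ℂ] K := InnerProductSpace.rankOne ℂ u g with hR
  have hRN : R ∈ AlgN := by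
    intro s
    ext1 z
    simp only [hR, mul_apply_eq_comp, InnerProductSpace.rankOne_apply, map_smul]
    rcases le_total s t with hst | hst
    · have e1 : P s g = 0 := by
        have : P s g = (P s - P s * P t) w := by
          rw [hg', map_sub, sub_apply, mul_apply_eq_comp]
        rw [this, P_mul_P, min_eq_left hst, sub_self]
        rfl
      have e2 : ⟪g, P s z⟫_ℂ = 0 := by
        have : ⟪g, P s z⟫_ℂ = ⟪(star (P s)) g, z⟫_ℂ := by
          rw [ContinuousLinearMap.star_eq_adjoint, ContinuousLinearMap.adjoint_inner_left]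
        rw [this, star_P, e1, inner_zero_left]
      rw [e2, zero_smul, zero_smul]
    · have e1 : P s u = u := by
        have : P s u = (P s * P t) x := rfl
        rw [this, P_mul_P, min_eq_right hst]
      rw [e1]
  have hRS : R ∈ SS := ⟨0, Pol.zero_mem, R, rankOne_mem_FR _ _, hRN, by simp⟩
  have hmem : mk (1 - P t) 0 0 0 * A * mk R 0 0 0 ∈ T :=
    T.mul_mem (T.mul_mem (h0 (e00_mem_T0 (D_sub_SS (sub_P_mem_D t)))) hA) (h0 (e00_mem_T0 hRS))
  have hform : mk (1 - P t) 0 0 0 * A * mk R 0 0 0 =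
      mk (InnerProductSpace.rankOne ℂ g g) 0 0 0 := by
    apply mk_ext
    · simp only [blk_mul, blk_mk00, blk_mk01, blk_mk10]
      simp only [zero_mul, mul_zero, add_zero]
      ext1 z
      simp only [mul_apply_eq_comp, hR, InnerProductSpace.rankOne_apply, map_smul]
      rfl
    · simp only [blk_mul, blk_mk00, blk_mk01, blk_mk11]
      simp
    · simp only [blk_mul, blk_mk00, blk_mk10, blk_mk11]
      simp
    · simp only [blk_mul, blk_mk01, blk_mk10, blk_mk11]
      simp
  rw [hform] at hmem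
  have hstar : star (mk (InnerProductSpace.rankOne ℂ g g) 0 0 0 : H2 K →L[ℂ] H2 K) =
      mk (InnerProductSpace.rankOne ℂ g g) 0 0 0 := by
    apply mk_ext
    · rw [blk_star, blk_mk00, ContinuousLinearMap.star_eq_adjoint,
        InnerProductSpace.adjoint_rankOne]
    · rw [blk_star, blk_mk10, star_zero]
    · rw [blk_star, blk_mk01, star_zero]
    · rw [blk_star, blk_mk11, star_zero]
  have hdgm : mk (InnerProductSpace.rankOne ℂ g g) 0 0 0 ∈ dg T :=
    ⟨hmem, by rw [hstar]; exact hmem⟩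
  rw [hdg] at hdgm
  have h1 := hdgm.1
  rw [blk_mk00] at h1
  exact hg0 (rankOne_not_mem_D g h1)

/-- The inverse of `1 - V`. -/
def Yi : K →L[ℂ] K := ∑' n : ℕ, V ^ n

lemma norm_V_lt : ‖V‖ < 1 := norm_V_le.trans_lt (by norm_num)

lemma Yi_mul : Yi * (1 - V) = 1 := geom_series_mul_neg V norm_V_lt

lemma Yi_mem_AlgN : Yi ∈ AlgN := by
  have h := (summable_geometric_of_norm_lt_one norm_V_lt).hasSum
  refine AlgN_closed.mem_of_tendsto h ?_
  filter_upwards with s
  induction s using Finset.induction_on with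
  | empty =>
    intro t
    simp
  | insert a s ha ih =>
    rw [Finset.sum_insert ha]
    refine AlgN_add ?_ ih
    clear ha ih
    induction a with
    | zero => rw [pow_zero]; exact D_sub_AlgN one_mem_D
    | succ n ih => rw [pow_succ]; exact AlgN_mul ih V_mem_AlgN

/-- The inverse is not in the corner of any triangular algebra above `T0`. -/
theorem Yi_not_corner (T : Subalgebra ℂ (H2 K →L[ℂ] H2 K)) (h0 : T0 ≤ T)
    (hT : Set.centralizer (dg T) = dg T) {A : H2 K →L[ℂ] H2 K} (hA : A ∈ T) :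
    blk A 0 0 ≠ Yi := by
  intro hY
  apply no_e01 T h0 hT
  have h1 : mk 1 0 0 0 * A * mk 0 (1 - V) 0 0 ∈ T :=
    T.mul_mem (T.mul_mem (h0 (e00_mem_T0 (D_sub_SS one_mem_D))) hA)
      (h0 (e01_mem_T0 sub_V_mem_MM))
  have h2 : mk 1 0 0 0 * A * mk 0 (1 - V) 0 0 = mk 0 1 0 0 := by
    apply mk_ext
    · simp only [blk_mul, blk_mk00, blk_mk01, blk_mk10]
      simp
    · simp only [blk_mul, blk_mk00, blk_mk01, blk_mk11]
      simp only [zero_mul, mul_zero, add_zero, one_mul, hY, Yi_mul]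
    · simp only [blk_mul, blk_mk00, blk_mk10, blk_mk11]
      simp
    · simp only [blk_mul, blk_mk01, blk_mk10, blk_mk11]
      simp
  rw [h2] at h1
  exact h1

/-- The first summand as a subspace. -/
def K1 : Submodule ℂ (H2 K) := LinearMap.ker (prj 1 : H2 K →L[ℂ] K).toLinearMap

lemma mem_K1 {x : H2 K} : x ∈ K1 ↔ prj 1 x = 0 := Iff.rfl

instance : CompleteSpace K1 := by
  have : IsClosed (K1 : Set (H2 K)) := (prj 1 : H2 K →L[ℂ] K).isClosed_ker
  exact this.completeSpace_coe

/-- The identification with the first summand. -/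
def jj : K →L[ℂ] K1 := (inc 0 : K →L[ℂ] H2 K).codRestrict K1 (fun x => by
  rw [mem_K1, prj_inc]
  simp)

def pp : K1 →L[ℂ] K := prj 0 ∘L K1.subtypeL

lemma pp_jj (x : K) : pp (jj x) = x := by
  change prj 0 (inc 0 x) = x
  rw [prj_inc]
  simp

lemma jj_pp (x : K1) : jj (pp x) = x := by
  apply Subtype.ext
  change inc 0 (prj 0 (x : H2 K)) = x
  have h := sum_inc_prj (x : H2 K)
  rw [mem_K1.1 x.2, map_zero, add_zero] at h
  exact h

lemma sub_jj : K1.subtypeL ∘L jj = inc 0 := rfl

lemma orth_K1 (x : H2 K) : K1.orthogonalProjection x = jj (prj 0 x) := by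
  apply Subtype.ext
  change K1.starProjection x = _
  apply Submodule.eq_starProjection_of_mem_of_inner_eq_zero
  · exact (jj (prj 0 x)).2
  · intro w hw
    have e1 : x - (jj (prj 0 x) : H2 K) = inc 1 (prj 1 x) := by
      change x - inc 0 (prj 0 x) = _
      conv_lhs => rw [← sum_inc_prj x]
      simp [prj_inc]
    rw [e1, inner_inc, mem_K1.1 hw, inner_zero_right]

lemma pp_orth : pp ∘L K1.orthogonalProjection = prj 0 := by
  ext1 x
  change pp (K1.orthogonalProjection x) = _
  rw [orth_K1, pp_jj]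

/-- Transport to operators on the first summand. -/
def ph (A : K1 →L[ℂ] K1) : K →L[ℂ] K := pp ∘L A ∘L jj

def ps (A : K →L[ℂ] K) : K1 →L[ℂ] K1 := jj ∘L A ∘L pp

lemma ph_ps (A : K →L[ℂ] K) : ph (ps A) = A := by
  ext1 x
  change pp (jj (A (pp (jj x)))) = A x
  rw [pp_jj, pp_jj]

lemma ps_ph (A : K1 →L[ℂ] K1) : ps (ph A) = A := by
  ext1 x
  change jj (pp (A (jj (pp x)))) = A x
  rw [jj_pp, jj_pp]

lemma ph_mul (A B : K1 →L[ℂ] K1) : ph (A * B) = ph A * ph B := by
  ext1 x
  change pp (A (B (jj x))) = pp (A (jj (pp (B (jj x)))))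
  rw [jj_pp]

lemma ph_add (A B : K1 →L[ℂ] K1) : ph (A + B) = ph A + ph B := by
  ext1 x
  change pp ((A + B) (jj x)) = pp (A (jj x)) + pp (B (jj x))
  rw [add_apply, map_add]

lemma ph_smul_one (r : ℂ) : ph (r • (1 : K1 →L[ℂ] K1)) = r • 1 := by
  ext1 x
  change pp ((r • (1 : K1 →L[ℂ] K1)) (jj x)) = r • x
  rw [smul_apply, one_apply_eq_self, map_smul, pp_jj]

lemma adjoint_jj : ContinuousLinearMap.adjoint jj = pp := by
  symm
  rw [ContinuousLinearMap.eq_adjoint_iff]
  intro x y
  change ⟪prj 0 (x : H2 K), y⟫_ℂ = ⟪(x : H2 K), inc 0 y⟫_ℂ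
  rw [← inner_conj_symm, ← inner_inc, inner_conj_symm]

lemma ph_star (A : K1 →L[ℂ] K1) : ph (star A) = star (ph A) := by
  rw [ph, ph, ContinuousLinearMap.star_eq_adjoint, ContinuousLinearMap.star_eq_adjoint,
    ContinuousLinearMap.adjoint_comp, ContinuousLinearMap.adjoint_comp, adjoint_jj,
    ContinuousLinearMap.comp_assoc]
  rw [← adjoint_jj, ContinuousLinearMap.adjoint_adjoint]

lemma ph_comp (A : H2 K →L[ℂ] H2 K) :
    ph (K1.orthogonalProjection ∘L A ∘L K1.subtypeL) = blk A 0 0 := by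
  ext1 x
  change pp (K1.orthogonalProjection (A (K1.subtypeL (jj x)))) = _
  rw [orth_K1, pp_jj]
  rfl

/-- The nest algebra on the first summand. -/
def BB : Subalgebra ℂ (K1 →L[ℂ] K1) where
  carrier := {A | ph A ∈ AlgN}
  mul_mem' := by
    intro A B hA hB
    change ph (A * B) ∈ AlgN
    rw [ph_mul]
    exact AlgN_mul hA hB
  add_mem' := by
    intro A B hA hB
    change ph (A + B) ∈ AlgN
    rw [ph_add]
    exact AlgN_add hA hB
  algebraMap_mem' := by
    intro r
    change ph (algebraMap ℂ (K1 →L[ℂ] K1) r) ∈ AlgN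
    rw [Algebra.algebraMap_eq_smul_one, ph_smul_one]
    exact AlgN_smul _ (D_sub_AlgN one_mem_D)

lemma mem_BB {A : K1 →L[ℂ] K1} : A ∈ BB ↔ ph A ∈ AlgN := Iff.rfl

lemma dg_BB : dg BB = {A | ph A ∈ D} := by
  apply Set.Subset.antisymm
  · rintro A ⟨h1, h2⟩
    rw [mem_BB] at h1 h2
    rw [ph_star] at h2
    exact AlgN_diag h1 h2
  · intro A hA
    refine ⟨D_sub_AlgN hA, ?_⟩
    rw [mem_BB, ph_star]
    exact D_sub_AlgN (star_mem_D hA)

lemma BB_tri : Set.centralizer (dg BB) = dg BB := by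
  rw [dg_BB]
  apply Set.Subset.antisymm
  · intro A hA
    rw [Set.mem_centralizer_iff] at hA
    apply mem_D_of_comm
    intro Y hY
    have h1 := hA (ps Y) (by change ph (ps Y) ∈ D; rw [ph_ps]; exact hY)
    have h2 := congrArg ph h1
    rw [ph_mul, ph_mul, ph_ps] at h2
    exact h2.symm
  · intro A hA
    rw [Set.mem_centralizer_iff]
    intro B hB
    have h1 : ph (B * A) = ph (A * B) := by
      rw [ph_mul, ph_mul]
      exact D_comm _ _ hB hA
    have h2 := congrArg ps h1
    rwa [ps_ph, ps_ph] at h2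

lemma proj_mem_T0 : K1.subtypeL ∘L K1.orthogonalProjection ∈ T0 := by
  have : K1.subtypeL ∘L K1.orthogonalProjection = mk 1 0 0 0 := by
    apply mk_ext
    · ext1 x
      change prj 0 (K1.orthogonalProjection (inc 0 x) : H2 K) = x
      rw [orth_K1]
      change prj 0 (inc 0 (prj 0 (inc 0 x))) = x
      simp [prj_inc]
    · ext1 x
      change prj 0 (K1.orthogonalProjection (inc 1 x) : H2 K) = 0
      rw [orth_K1]
      change prj 0 (inc 0 (prj 0 (inc 1 x))) = 0
      simp [prj_inc]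
    · ext1 x
      change prj 1 (K1.orthogonalProjection (inc 0 x) : H2 K) = 0
      rw [orth_K1]
      change prj 1 (inc 0 (prj 0 (inc 0 x))) = 0
      simp [prj_inc]
    · ext1 x
      change prj 1 (K1.orthogonalProjection (inc 1 x) : H2 K) = 0
      rw [orth_K1]
      change prj 1 (inc 0 (prj 0 (inc 1 x))) = 0
      simp [prj_inc]
  rw [this]
  exact e00_mem_T0 (D_sub_SS one_mem_D)

/-- The compression of a maximal triangular algebra above `T0` to the first summand is not maximal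
triangular. -/
theorem not_max (T : Subalgebra ℂ (H2 K →L[ℂ] H2 K)) (h0 : T0 ≤ T)
    (hT : Set.centralizer (dg T) = dg T) :
    ¬ ∃ S : Subalgebra ℂ (K1 →L[ℂ] K1),
        (S : Set (K1 →L[ℂ] K1)) =
          (fun A : H2 K →L[ℂ] H2 K => K1.orthogonalProjection ∘L A ∘L K1.subtypeL) ''
            (T : Set (H2 K →L[ℂ] H2 K)) ∧
        Set.centralizer (dg S) = dg S ∧
        ∀ B : Subalgebra ℂ (K1 →L[ℂ] K1), S ≤ B →
          Set.centralizer (dg B) = dg B → B = S := by
  rintro ⟨S, hS, -, hmax⟩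
  have hle : S ≤ BB := by
    intro s hs
    rw [← SetLike.mem_coe, hS] at hs
    obtain ⟨A, hA, rfl⟩ := hs
    rw [mem_BB]
    simp only [ph_comp]
    exact corner_mem_AlgN T h0 hT hA
  have heq := hmax BB hle BB_tri
  have hY : ps Yi ∈ BB := by
    rw [mem_BB, ph_ps]
    exact Yi_mem_AlgN
  rw [heq, ← SetLike.mem_coe, hS] at hY
  obtain ⟨A, hA, hAY⟩ := hY
  have h1 := congrArg ph hAY
  simp only [ph_comp, ph_ps] at h1
  exact Yi_not_corner T h0 hT hA h1

end Pool.Agent.Helper56
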