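import Mathlib

set_option autoImplicit false

noncomputable section

namespace Pool.Agent.Helper56

section Zorn

variable {R A : Type*} [CommSemiring R] [Semiring A] [StarRing A] [Algebra R A]

/-- The diagonal of a subalgebra. -/
def dg (T : Subalgebra R A) : Set A := {x | x ∈ T ∧ star x ∈ T}

lemma dg_mono {T T' : Subalgebra R A} (h : T ≤ T') : dg T ⊆ dg T' :=
  fun _ hx => ⟨h hx.1, h hx.2⟩

lemma dg_eq_of_le {T T' : Subalgebra R A} (h : T ≤ T')
    (h1 : Set.centralizer (dg T) = dg T) (h2 : Set.centralizer (dg T') = dg T') :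
    dg T' = dg T := by
  apply Set.Subset.antisymm _ (dg_mono h)
  intro x hx
  rw [← h1]
  rw [← h2] at hx
  exact Set.centralizer_subset (dg_mono h) hx

lemma chain_ub (T0 : Subalgebra R A) (c : Set (Subalgebra R A))
    (hc : c ⊆ {T : Subalgebra R A | T0 ≤ T ∧ dg T = dg T0})
    (hchain : IsChain (fun x1 x2 => x1 ≤ x2) c) (y : Subalgebra R A) (hy : y ∈ c) :
    ∃ ub ∈ {T : Subalgebra R A | T0 ≤ T ∧ dg T = dg T0}, ∀ z ∈ c, z ≤ ub := by
  have : Nonempty c := ⟨⟨y, hy⟩⟩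
  have hdir : Directed (· ≤ ·) (fun x : c => (x : Subalgebra R A)) := by
    intro a b
    rcases hchain.total a.2 b.2 with h | h
    · exact ⟨b, h, le_rfl⟩
    · exact ⟨a, le_rfl, h⟩
  have hcoe := Subalgebra.coe_iSup_of_directed hdir
  refine ⟨⨆ x : c, (x : Subalgebra R A), ⟨?_, ?_⟩, ?_⟩
  · exact (hc hy).1.trans (le_iSup (fun x : c => (x : Subalgebra R A)) ⟨y, hy⟩)
  · apply Set.Subset.antisymm
    · rintro x ⟨hx1, hx2⟩
      rw [← SetLike.mem_coe, hcoe, Set.mem_iUnion] at hx1 hx2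
      obtain ⟨a, ha⟩ := hx1
      obtain ⟨b, hb⟩ := hx2
      obtain ⟨d, hd1, hd2⟩ := hdir a b
      rw [← (hc d.2).2]
      exact ⟨hd1 ha, hd2 hb⟩
    · apply dg_mono
      exact (hc hy).1.trans (le_iSup (fun x : c => (x : Subalgebra R A)) ⟨y, hy⟩)
  · intro z hz
    exact le_iSup (fun x : c => (x : Subalgebra R A)) ⟨z, hz⟩

theorem exists_max (T0 : Subalgebra R A) (h0 : Set.centralizer (dg T0) = dg T0) :
    ∃ T : Subalgebra R A, T0 ≤ T ∧ Set.centralizer (dg T) = dg T ∧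
      ∀ B : Subalgebra R A, T ≤ B → Set.centralizer (dg B) = dg B → B = T := by
  obtain ⟨T, hT0, hTmax⟩ := zorn_le_nonempty₀
    {T : Subalgebra R A | T0 ≤ T ∧ dg T = dg T0} (chain_ub T0) T0 ⟨le_rfl, rfl⟩
  refine ⟨T, hT0, ?_, ?_⟩
  · rw [hTmax.prop.2, h0]
  · intro B hTB hB
    have hT1 : Set.centralizer (dg T) = dg T := by rw [hTmax.prop.2, h0]
    have h1 : dg B = dg T := dg_eq_of_le hTB hT1 hB
    have h2 : B ∈ {T : Subalgebra R A | T0 ≤ T ∧ dg T = dg T0} :=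
      ⟨hT0.trans hTB, by rw [h1, hTmax.prop.2]⟩
    exact le_antisymm (hTmax.le_of_ge h2 hTB) hTB

end Zorn

end Pool.Agent.Helper56
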