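import Pool.Agent.Helper56.Pol
import Pool.Agent.Helper56.Tri
import Pool.Agent.Helper56.Blocks

set_option autoImplicit false

open MeasureTheory ENNReal Filter Topology
open scoped InnerProductSpace

noncomputable section

namespace Pool.Agent.Helper56

/-- Finite rank operators. -/
def FR : Submodule ℂ (K →L[ℂ] K) :=
  Submodule.span ℂ {f | ∃ u v : K, f = InnerProductSpace.rankOne ℂ u v}

lemma rankOne_mem_FR (u v : K) : InnerProductSpace.rankOne ℂ u v ∈ FR :=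
  Submodule.subset_span ⟨u, v, rfl⟩

lemma mul_mem_FR (A : K →L[ℂ] K) {f : K →L[ℂ] K} (hf : f ∈ FR) : A * f ∈ FR := by
  induction hf using Submodule.span_induction with
  | mem x hx =>
    obtain ⟨u, v, rfl⟩ := hx
    have : A * InnerProductSpace.rankOne ℂ u v = InnerProductSpace.rankOne ℂ (A u) v := by
      ext1 x
      simp [InnerProductSpace.rankOne_apply]
    rw [this]
    exact rankOne_mem_FR _ _
  | zero => simp
  | add x y _ _ h1 h2 => rw [mul_add]; exact FR.add_mem h1 h2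
  | smul c x _ h1 => rw [mul_smul_comm]; exact FR.smul_mem _ h1

lemma mem_FR_mul (A : K →L[ℂ] K) {f : K →L[ℂ] K} (hf : f ∈ FR) : f * A ∈ FR := by
  induction hf using Submodule.span_induction with
  | mem x hx =>
    obtain ⟨u, v, rfl⟩ := hx
    have : InnerProductSpace.rankOne ℂ u v * A = InnerProductSpace.rankOne ℂ u (star A v) := by
      ext1 x
      simp only [mul_apply_eq_comp, InnerProductSpace.rankOne_apply]
      rw [ContinuousLinearMap.star_eq_adjoint, ContinuousLinearMap.adjoint_inner_left]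
    rw [this]
    exact rankOne_mem_FR _ _
  | zero => simp
  | add x y _ _ h1 h2 => rw [add_mul]; exact FR.add_mem h1 h2
  | smul c x _ h1 => rw [smul_mul_assoc]; exact FR.smul_mem _ h1

lemma FR_weak {f : K →L[ℂ] K} (hf : f ∈ FR) (x : K) :
    Tendsto (fun η : ℝ => f (U η x)) atTop (𝓝 0) := by
  induction hf using Submodule.span_induction with
  | mem g hg =>
    obtain ⟨u, v, rfl⟩ := hg
    simp only [InnerProductSpace.rankOne_apply]
    have h1 : Tendsto (fun η : ℝ => ⟪v, U η x⟫_ℂ) atTop (𝓝 0) :=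
      (U_weak v x).mono_left atTop_le_cocompact
    have := h1.smul_const u
    rwa [zero_smul] at this
  | zero => simp
  | add g h _ _ h1 h2 =>
    have := h1.add h2
    simpa using this
  | smul c g _ h1 =>
    have := h1.const_smul c
    simpa using this

/-- The nest algebra. -/
def AlgN : Set (K →L[ℂ] K) := {x | ∀ t, P t * x * P t = x * P t}

lemma D_sub_AlgN {x : K →L[ℂ] K} (hx : x ∈ D) : x ∈ AlgN := by
  intro t
  rw [← hx t, mul_assoc, P_idem]

lemma AlgN_add {x y : K →L[ℂ] K} (hx : x ∈ AlgN) (hy : y ∈ AlgN) : x + y ∈ AlgN := by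
  intro t
  rw [mul_add, add_mul, add_mul, hx t, hy t]

lemma AlgN_smul (c : ℂ) {x : K →L[ℂ] K} (hx : x ∈ AlgN) : c • x ∈ AlgN := by
  intro t
  rw [mul_smul_comm, smul_mul_assoc, smul_mul_assoc, hx t]

lemma AlgN_mul {x y : K →L[ℂ] K} (hx : x ∈ AlgN) (hy : y ∈ AlgN) : x * y ∈ AlgN := by
  intro t
  calc P t * (x * y) * P t = P t * x * (y * P t) := by noncomm_ring
    _ = P t * x * (P t * y * P t) := by rw [hy t]
    _ = (P t * x * P t) * (y * P t) := by noncomm_ring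
    _ = x * (P t * y * P t) := by rw [hx t]; noncomm_ring
    _ = x * y * P t := by rw [hy t]; noncomm_ring

lemma AlgN_closed : IsClosed AlgN := by
  have : AlgN = ⋂ t, {x | P t * x * P t = x * P t} := by
    ext x
    simp [AlgN]
  rw [this]
  apply isClosed_iInter
  intro t
  exact isClosed_eq (by fun_prop) (by fun_prop)

lemma W_mem_AlgN {s : ℝ} (hs : 0 ≤ s) : W s ∈ AlgN := fun t => P_W_P t s hs

lemma V_mem_AlgN : V ∈ AlgN := by
  have h := (summable_Tb summable_cf).hasSum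
  refine AlgN_closed.mem_of_tendsto h ?_
  filter_upwards with s
  induction s using Finset.induction_on with
  | empty =>
    intro t
    simp
  | insert a s ha ih =>
    rw [Finset.sum_insert ha]
    exact AlgN_add (AlgN_smul _ (W_mem_AlgN (sh_nonneg a))) ih

lemma Pol_AlgN {q : (K →L[ℂ] K) → (K →L[ℂ] K)} (hq : q ∈ Pol) : q V ∈ AlgN := by
  refine Pol_induction (p := fun q => q V ∈ AlgN) V_mem_AlgN (fun d hd => D_sub_AlgN hd)
    (fun q r h1 h2 => AlgN_add h1 h2) (fun q r h1 h2 => AlgN_mul h1 h2) hq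

lemma AlgN_diag {x : K →L[ℂ] K} (h1 : x ∈ AlgN) (h2 : star x ∈ AlgN) : x ∈ D := by
  intro t
  have h3 := congrArg star (h2 t)
  rw [star_mul, star_mul, star_mul, star_star, star_P] at h3
  calc x * P t = P t * x * P t := (h1 t).symm
    _ = P t * (x * P t) := mul_assoc _ _ _
    _ = P t * x := h3

/-- The corner algebra. -/
def SS : Set (K →L[ℂ] K) := {x | ∃ q ∈ Pol, ∃ f ∈ FR, f ∈ AlgN ∧ x = q V + f}

/-- The ideal of elements with vanishing symbol at the identity. -/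
def MM : Set (K →L[ℂ] K) := {x | ∃ q ∈ Pol, q 1 = 0 ∧ ∃ f ∈ FR, f ∈ AlgN ∧ x = q V + f}

lemma MM_sub_SS {x : K →L[ℂ] K} (h : x ∈ MM) : x ∈ SS := by
  obtain ⟨q, hq, _, f, hf, hf', rfl⟩ := h
  exact ⟨q, hq, f, hf, hf', rfl⟩

lemma SS_sub_AlgN {x : K →L[ℂ] K} (h : x ∈ SS) : x ∈ AlgN := by
  obtain ⟨q, hq, f, hf, hf', rfl⟩ := h
  exact AlgN_add (Pol_AlgN hq) hf'

lemma zero_mem_AlgN : (0 : K →L[ℂ] K) ∈ AlgN := fun t => by simp

lemma D_sub_SS {x : K →L[ℂ] K} (h : x ∈ D) : x ∈ SS :=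
  ⟨fun _ => x, const_mem_Pol h, 0, FR.zero_mem, zero_mem_AlgN, by simp⟩

lemma zero_mem_MM : (0 : K →L[ℂ] K) ∈ MM :=
  ⟨0, Pol.zero_mem, rfl, 0, FR.zero_mem, zero_mem_AlgN, by simp⟩

lemma SS_add {x y : K →L[ℂ] K} (hx : x ∈ SS) (hy : y ∈ SS) : x + y ∈ SS := by
  obtain ⟨q, hq, f, hf, hf', rfl⟩ := hx
  obtain ⟨r, hr, g, hg, hg', rfl⟩ := hy
  exact ⟨q + r, Pol.add_mem hq hr, f + g, FR.add_mem hf hg, AlgN_add hf' hg', by
    simp only [Pi.add_apply]; abel⟩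

lemma MM_add {x y : K →L[ℂ] K} (hx : x ∈ MM) (hy : y ∈ MM) : x + y ∈ MM := by
  obtain ⟨q, hq, hq1, f, hf, hf', rfl⟩ := hx
  obtain ⟨r, hr, hr1, g, hg, hg', rfl⟩ := hy
  exact ⟨q + r, Pol.add_mem hq hr, by simp [hq1, hr1], f + g, FR.add_mem hf hg,
    AlgN_add hf' hg', by simp only [Pi.add_apply]; abel⟩

lemma prod_form {q r : (K →L[ℂ] K) → (K →L[ℂ] K)} (hq : q ∈ Pol) (hr : r ∈ Pol)
    {f g : K →L[ℂ] K} (hf : f ∈ FR) (hf' : f ∈ AlgN) (hg : g ∈ FR) (hg' : g ∈ AlgN) :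
    ∃ h ∈ FR, h ∈ AlgN ∧ (q V + f) * (r V + g) = (q * r) V + h := by
  refine ⟨q V * g + (f * r V + f * g), ?_, ?_, ?_⟩
  · exact FR.add_mem (mul_mem_FR _ hg) (FR.add_mem (mem_FR_mul _ hf) (mem_FR_mul _ hf))
  · exact AlgN_add (AlgN_mul (Pol_AlgN hq) hg')
      (AlgN_add (AlgN_mul hf' (Pol_AlgN hr)) (AlgN_mul hf' hg'))
  · simp only [Pi.mul_apply]
    noncomm_ring

lemma SS_mul {x y : K →L[ℂ] K} (hx : x ∈ SS) (hy : y ∈ SS) : x * y ∈ SS := by
  obtain ⟨q, hq, f, hf, hf', rfl⟩ := hx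
  obtain ⟨r, hr, g, hg, hg', rfl⟩ := hy
  obtain ⟨h, h1, h2, h3⟩ := prod_form hq hr hf hf' hg hg'
  exact ⟨q * r, Pol.mul_mem hq hr, h, h1, h2, h3⟩

lemma SS_mul_MM {x y : K →L[ℂ] K} (hx : x ∈ SS) (hy : y ∈ MM) : x * y ∈ MM := by
  obtain ⟨q, hq, f, hf, hf', rfl⟩ := hx
  obtain ⟨r, hr, hr1, g, hg, hg', rfl⟩ := hy
  obtain ⟨h, h1, h2, h3⟩ := prod_form hq hr hf hf' hg hg'
  exact ⟨q * r, Pol.mul_mem hq hr, by simp [hr1], h, h1, h2, h3⟩

lemma MM_mul_SS {x y : K →L[ℂ] K} (hx : x ∈ MM) (hy : y ∈ SS) : x * y ∈ MM := by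
  obtain ⟨q, hq, hq1, f, hf, hf', rfl⟩ := hx
  obtain ⟨r, hr, g, hg, hg', rfl⟩ := hy
  obtain ⟨h, h1, h2, h3⟩ := prod_form hq hr hf hf' hg hg'
  exact ⟨q * r, Pol.mul_mem hq hr, by simp [hq1], h, h1, h2, h3⟩

lemma MM_inter_D {x : K →L[ℂ] K} (hx : x ∈ MM) (hD : x ∈ D) : x = 0 := by
  obtain ⟨q, hq, hq1, f, hf, hf', rfl⟩ := hx
  have := lemmaA hq hD (FR_weak hf) rfl
  rw [← this, hq1]

lemma sub_V_mem_MM : (1 : K →L[ℂ] K) - V ∈ MM := by
  refine ⟨(fun _ => 1) + (-1 : ℂ) • id, ?_, ?_, 0, FR.zero_mem, zero_mem_AlgN, ?_⟩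
  · exact Pol.add_mem (const_mem_Pol one_mem_D) (Pol.smul_mem id_mem_Pol _)
  · simp
  · simp [sub_eq_add_neg]

lemma sub_V_pow_mem_MM (n : ℕ) : (1 : K →L[ℂ] K) - V ^ n ∈ MM := by
  refine ⟨(fun _ => 1) + (-1 : ℂ) • (id ^ n), ?_, ?_, 0, FR.zero_mem, zero_mem_AlgN, ?_⟩
  · exact Pol.add_mem (const_mem_Pol one_mem_D) (Pol.smul_mem (Pol.pow_mem id_mem_Pol n) _)
  · simp
  · simp [sub_eq_add_neg]

/-- The triangular algebra. -/
def T0 : Subalgebra ℂ (H2 K →L[ℂ] H2 K) where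
  carrier := {A | (∀ i j, blk A i j ∈ SS) ∧ blk A 0 1 ∈ MM}
  mul_mem' := by
    rintro A B ⟨hA, hA'⟩ ⟨hB, hB'⟩
    refine ⟨fun i j => ?_, ?_⟩
    · rw [blk_mul]
      exact SS_add (SS_mul (hA _ _) (hB _ _)) (SS_mul (hA _ _) (hB _ _))
    · rw [blk_mul]
      exact MM_add (SS_mul_MM (hA _ _) hB') (MM_mul_SS hA' (hB _ _))
  add_mem' := by
    rintro A B ⟨hA, hA'⟩ ⟨hB, hB'⟩
    refine ⟨fun i j => ?_, ?_⟩
    · rw [blk_add]
      exact SS_add (hA _ _) (hB _ _)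
    · rw [blk_add]
      exact MM_add hA' hB'
  algebraMap_mem' := by
    intro r
    rw [Algebra.algebraMap_eq_smul_one]
    have h0 : ∀ c : ℂ, c • (1 : K →L[ℂ] K) ∈ D := by
      intro c t
      rw [smul_mul_assoc, mul_smul_comm, one_mul, mul_one]
    refine ⟨fun i j => ?_, ?_⟩
    · rw [blk_smul, blk_one]
      split_ifs
      · exact D_sub_SS (h0 r)
      · rw [smul_zero]
        exact MM_sub_SS zero_mem_MM
    · rw [blk_smul, blk_one, if_neg (by decide), smul_zero]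
      exact zero_mem_MM

lemma mem_T0 {A : H2 K →L[ℂ] H2 K} :
    A ∈ T0 ↔ (∀ i j, blk A i j ∈ SS) ∧ blk A 0 1 ∈ MM := Iff.rfl

/-- The masa. -/
def DD : Set (H2 K →L[ℂ] H2 K) :=
  {A | blk A 0 0 ∈ D ∧ blk A 1 1 ∈ D ∧ blk A 0 1 = 0 ∧ blk A 1 0 = 0}

lemma dg_T0 : dg T0 = DD := by
  apply Set.Subset.antisymm
  · rintro A ⟨⟨h1, h2⟩, ⟨h3, h4⟩⟩
    have hD : ∀ i j, blk A i j ∈ D := by
      intro i j
      apply AlgN_diag (SS_sub_AlgN (h1 i j))
      rw [← blk_star]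
      exact SS_sub_AlgN (h3 j i)
    refine ⟨hD 0 0, hD 1 1, MM_inter_D h2 (hD 0 1), ?_⟩
    have h5 : star (blk A 1 0) = 0 := by
      rw [← blk_star]
      apply MM_inter_D h4
      rw [blk_star]
      exact star_mem_D (hD 1 0)
    exact star_eq_zero.1 h5
  · rintro A ⟨h1, h2, h3, h4⟩
    have key : ∀ B : H2 K →L[ℂ] H2 K, blk B 0 0 ∈ D → blk B 1 1 ∈ D → blk B 0 1 = 0 →
        blk B 1 0 = 0 → B ∈ T0 := by
      intro B h1 h2 h3 h4
      refine ⟨fun i j => ?_, ?_⟩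
      · fin_cases i <;> fin_cases j
        · exact D_sub_SS h1
        · change blk B 0 1 ∈ SS
          rw [h3]; exact MM_sub_SS zero_mem_MM
        · change blk B 1 0 ∈ SS
          rw [h4]; exact MM_sub_SS zero_mem_MM
        · exact D_sub_SS h2
      · rw [h3]; exact zero_mem_MM
    refine ⟨key A h1 h2 h3 h4, key (star A) ?_ ?_ ?_ ?_⟩
    · rw [blk_star]; exact star_mem_D h1
    · rw [blk_star]; exact star_mem_D h2
    · rw [blk_star, h4, star_zero]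
    · rw [blk_star, h3, star_zero]

lemma mk_mem_DD {a d : K →L[ℂ] K} (ha : a ∈ D) (hd : d ∈ D) : mk a 0 0 d ∈ DD := by
  refine ⟨?_, ?_, ?_, ?_⟩
  · rw [blk_mk00]; exact ha
  · rw [blk_mk11]; exact hd
  · rw [blk_mk01]
  · rw [blk_mk10]

lemma zero_mem_D : (0 : K →L[ℂ] K) ∈ D := fun t => by simp

lemma centralizer_DD : Set.centralizer DD = DD := by
  apply Set.Subset.antisymm
  · intro A hA
    rw [Set.mem_centralizer_iff] at hA
    -- commuting with diag (1,0)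
    have h1 := hA _ (mk_mem_DD one_mem_D zero_mem_D)
    have h01 : blk A 0 1 = 0 := by
      have := congrArg (fun B => blk B 0 1) h1
      simp only [blk_mul, blk_mk00, blk_mk01, blk_mk11] at this
      simpa using this
    have h10 : blk A 1 0 = 0 := by
      have := congrArg (fun B => blk B 1 0) h1
      simp only [blk_mul, blk_mk00, blk_mk10, blk_mk11] at this
      simpa using this.symm
    refine ⟨?_, ?_, h01, h10⟩
    · apply mem_D_of_comm
      intro Y hY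
      have h2 := hA _ (mk_mem_DD hY zero_mem_D)
      have := congrArg (fun B => blk B 0 0) h2
      simp only [blk_mul, blk_mk00, blk_mk10, blk_mk01] at this
      simpa using this.symm
    · apply mem_D_of_comm
      intro Y hY
      have h2 := hA _ (mk_mem_DD zero_mem_D hY)
      have := congrArg (fun B => blk B 1 1) h2
      simp only [blk_mul, blk_mk11, blk_mk10, blk_mk01] at this
      simpa using this.symm
  · rintro A ⟨h1, h2, h3, h4⟩
    rw [Set.mem_centralizer_iff]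
    rintro B ⟨k1, k2, k3, k4⟩
    apply blk_ext
    intro i j
    fin_cases i <;> fin_cases j
    · change blk (B * A) 0 0 = blk (A * B) 0 0
      rw [blk_mul, blk_mul, h3, k3, zero_mul, zero_mul, D_comm _ _ h1 k1]
    · change blk (B * A) 0 1 = blk (A * B) 0 1
      rw [blk_mul, blk_mul, h3, k3]; simp
    · change blk (B * A) 1 0 = blk (A * B) 1 0
      rw [blk_mul, blk_mul, h4, k4]; simp
    · change blk (B * A) 1 1 = blk (A * B) 1 1
      rw [blk_mul, blk_mul, h4, k4, zero_mul, zero_mul, D_comm _ _ h2 k2]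

lemma T0_tri : Set.centralizer (dg T0) = dg T0 := by
  rw [dg_T0, centralizer_DD]

/-- The lower left matrix unit belongs to `T0`. -/
lemma e10_mem_T0 : mk 0 0 (1 : K →L[ℂ] K) 0 ∈ T0 := by
  refine ⟨fun i j => ?_, ?_⟩
  · fin_cases i <;> fin_cases j
    · change blk (mk 0 0 (1 : K →L[ℂ] K) 0) 0 0 ∈ SS
      rw [blk_mk00]; exact MM_sub_SS zero_mem_MM
    · change blk (mk 0 0 (1 : K →L[ℂ] K) 0) 0 1 ∈ SS
      rw [blk_mk01]; exact MM_sub_SS zero_mem_MM
    · change blk (mk 0 0 (1 : K →L[ℂ] K) 0) 1 0 ∈ SS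
      rw [blk_mk10]; exact D_sub_SS one_mem_D
    · change blk (mk 0 0 (1 : K →L[ℂ] K) 0) 1 1 ∈ SS
      rw [blk_mk11]; exact MM_sub_SS zero_mem_MM
  · rw [blk_mk01]; exact zero_mem_MM

lemma e01_mem_T0 {b : K →L[ℂ] K} (hb : b ∈ MM) : mk 0 b 0 0 ∈ T0 := by
  refine ⟨fun i j => ?_, ?_⟩
  · fin_cases i <;> fin_cases j
    · change blk (mk 0 b 0 0) 0 0 ∈ SS
      rw [blk_mk00]; exact MM_sub_SS zero_mem_MM
    · change blk (mk 0 b 0 0) 0 1 ∈ SS
      rw [blk_mk01]; exact MM_sub_SS hb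
    · change blk (mk 0 b 0 0) 1 0 ∈ SS
      rw [blk_mk10]; exact MM_sub_SS zero_mem_MM
    · change blk (mk 0 b 0 0) 1 1 ∈ SS
      rw [blk_mk11]; exact MM_sub_SS zero_mem_MM
  · rw [blk_mk01]; exact hb

lemma e00_mem_T0 {a : K →L[ℂ] K} (ha : a ∈ SS) : mk a 0 0 0 ∈ T0 := by
  refine ⟨fun i j => ?_, ?_⟩
  · fin_cases i <;> fin_cases j
    · change blk (mk a 0 0 0) 0 0 ∈ SS
      rw [blk_mk00]; exact ha
    · change blk (mk a 0 0 0) 0 1 ∈ SS
      rw [blk_mk01]; exact MM_sub_SS zero_mem_MM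
    · change blk (mk a 0 0 0) 1 0 ∈ SS
      rw [blk_mk10]; exact MM_sub_SS zero_mem_MM
    · change blk (mk a 0 0 0) 1 1 ∈ SS
      rw [blk_mk11]; exact MM_sub_SS zero_mem_MM
  · rw [blk_mk01]; exact zero_mem_MM

/-- No triangular algebra above `T0` contains the upper right matrix unit. -/
theorem no_e01 (T : Subalgebra ℂ (H2 K →L[ℂ] H2 K)) (h0 : T0 ≤ T)
    (hT : Set.centralizer (dg T) = dg T) : mk 0 (1 : K →L[ℂ] K) 0 0 ∉ T := by
  intro h1
  have hdg : dg T = DD := by rw [dg_eq_of_le h0 T0_tri hT, dg_T0]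
  have h2 : star (mk 0 (1 : K →L[ℂ] K) 0 0) = mk 0 0 (1 : K →L[ℂ] K) 0 := by
    apply mk_ext
    · rw [blk_star, blk_mk00, star_zero]
    · rw [blk_star, blk_mk10, star_zero]
    · rw [blk_star, blk_mk01, star_one]
    · rw [blk_star, blk_mk11, star_zero]
  have h3 : mk 0 (1 : K →L[ℂ] K) 0 0 ∈ dg T := ⟨h1, by rw [h2]; exact h0 e10_mem_T0⟩
  rw [hdg] at h3
  have h4 := h3.2.2.1
  rw [blk_mk01] at h4
  exact one_ne_zero h4

/-- A maximal triangular algebra above `T0` is not norm closed. -/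
theorem not_closed (T : Subalgebra ℂ (H2 K →L[ℂ] H2 K)) (h0 : T0 ≤ T)
    (hT : Set.centralizer (dg T) = dg T) : ¬ IsClosed (T : Set (H2 K →L[ℂ] H2 K)) := by
  intro hc
  apply no_e01 T h0 hT
  have h1 : Tendsto (fun n : ℕ => (1 : K →L[ℂ] K) - V ^ n) atTop (𝓝 (1 - 0)) :=
    tendsto_const_nhds.sub (tendsto_pow_atTop_nhds_zero_of_norm_lt_one
      (norm_V_le.trans_lt (by norm_num)))
  rw [sub_zero] at h1
  have h2 := (continuous_mk_b.tendsto (1 : K →L[ℂ] K)).comp h1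
  exact hc.mem_of_tendsto h2 (Eventually.of_forall (fun n => h0 (e01_mem_T0 (sub_V_pow_mem_MM n))))

end Pool.Agent.Helper56
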