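import Mathlib

set_option autoImplicit false

open MeasureTheory ENNReal Filter Topology
open scoped InnerProductSpace

noncomputable section

namespace Pool.Agent.Helper56

/-- The Hilbert space of square integrable functions on the line. -/
abbrev K : Type := Lp ℂ 2 (volume : Measure ℝ)

/-- Multiplication by an essentially bounded function. -/
def mulOp (g : Lp ℂ ∞ (volume : Measure ℝ)) : K →L[ℂ] K :=
  (ContinuousLinearMap.mul ℂ ℂ).holderL (volume : Measure ℝ) ∞ 2 2 g

lemma mulOp_ae (g : Lp ℂ ∞ (volume : Measure ℝ)) (f : K) :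
    mulOp g f =ᵐ[volume] fun x => g x * f x :=
  (ContinuousLinearMap.mul ℂ ℂ).coeFn_holder (r := 2) g f

/-- A measurable function bounded by one, as an essentially bounded function. -/
def bdd (g : ℝ → ℂ) (hg : Measurable g) (hb : ∀ x, ‖g x‖ ≤ 1) :
    Lp ℂ ∞ (volume : Measure ℝ) :=
  (memLp_top_of_bound hg.aestronglyMeasurable 1 (ae_of_all _ hb)).toLp g

lemma bdd_ae (g : ℝ → ℂ) (hg : Measurable g) (hb : ∀ x, ‖g x‖ ≤ 1) :
    bdd g hg hb =ᵐ[volume] g :=
  MemLp.coeFn_toLp _

lemma mul_bdd_ae (g : ℝ → ℂ) (hg : Measurable g) (hb : ∀ x, ‖g x‖ ≤ 1) (f : K) :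
    mulOp (bdd g hg hb) f =ᵐ[volume] fun x => g x * f x := by
  filter_upwards [mulOp_ae (bdd g hg hb) f, bdd_ae g hg hb] with x hx hx'
  rw [hx, hx']

/-- The projection onto functions vanishing on the right of `t`. -/
def P (t : ℝ) : K →L[ℂ] K :=
  mulOp (bdd ((Set.Iic t).indicator 1) (measurable_one.indicator measurableSet_Iic)
    (by intro x; by_cases h : x ∈ Set.Iic t <;> simp [h]))

lemma P_ae (t : ℝ) (f : K) : P t f =ᵐ[volume] fun x => if x ≤ t then f x else 0 := by
  filter_upwards [mul_bdd_ae ((Set.Iic t).indicator 1)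
    (measurable_one.indicator measurableSet_Iic)
    (by intro x; by_cases h : x ∈ Set.Iic t <;> simp [h]) f] with x hx
  rw [P, hx]
  by_cases h : x ≤ t
  · simp [Set.indicator, h]
  · simp [Set.indicator, h]

/-- The character `x ↦ exp (2 π i x)`. -/
def ch (x : ℝ) : ℂ := Complex.exp (2 * Real.pi * x * Complex.I)

lemma ch_add (x y : ℝ) : ch (x + y) = ch x * ch y := by
  rw [ch, ch, ch, ← Complex.exp_add]
  congr 1
  push_cast
  ring

lemma ch_zero : ch 0 = 1 := by simp [ch]

lemma ch_neg_mul (x : ℝ) : ch (-x) * ch x = 1 := by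
  rw [← ch_add, neg_add_cancel, ch_zero]

lemma norm_ch (x : ℝ) : ‖ch x‖ = 1 := by
  rw [ch, Complex.norm_exp]
  simp

lemma continuous_ch : Continuous ch := by
  unfold ch
  fun_prop

lemma ch_eq (x : ℝ) : (Real.fourierChar x : ℂ) = ch x := by
  rw [Real.fourierChar_apply, ch]
  push_cast
  rfl

/-- Modulation. -/
def U (η : ℝ) : K →L[ℂ] K :=
  mulOp (bdd (fun x => ch (η * x))
    ((continuous_ch.comp (continuous_const.mul continuous_id)).measurable)
    (fun x => (norm_ch _).le))

lemma U_ae (η : ℝ) (f : K) :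
    U η f =ᵐ[volume] fun x => ch (η * x) * f x :=
  mul_bdd_ae _ _ _ f

/-- Translation. -/
def W (s : ℝ) : K →L[ℂ] K :=
  (Lp.compMeasurePreservingₗᵢ ℂ (fun x : ℝ => x + s)
    (measurePreserving_add_right volume s)).toContinuousLinearMap

lemma W_ae (s : ℝ) (f : K) : W s f =ᵐ[volume] fun x => f (x + s) :=
  Lp.coeFn_compMeasurePreserving f (measurePreserving_add_right volume s)

lemma norm_W_apply (s : ℝ) (f : K) : ‖W s f‖ = ‖f‖ :=
  Lp.norm_compMeasurePreserving f (measurePreserving_add_right volume s)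

lemma norm_W_le (s : ℝ) : ‖W s‖ ≤ 1 :=
  ContinuousLinearMap.opNorm_le_bound _ zero_le_one (fun f => by rw [norm_W_apply, one_mul])

lemma ext_ae {A B : K →L[ℂ] K} (h : ∀ f : K, A f =ᵐ[volume] B f) : A = B := by
  ext1 f
  exact Lp.ext (h f)

lemma P_mul_P (s t : ℝ) : P s * P t = P (min s t) := by
  apply ext_ae
  intro f
  rw [mul_apply_eq_comp]
  filter_upwards [P_ae s (P t f), P_ae t f, P_ae (min s t) f] with x h1 h2 h3
  rw [h1, h2, h3]
  by_cases hs : x ≤ s <;> by_cases ht : x ≤ t <;> simp [hs, ht]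

lemma P_idem (t : ℝ) : P t * P t = P t := by
  rw [P_mul_P, min_self]

lemma U_comm_P (η t : ℝ) : U η * P t = P t * U η := by
  apply ext_ae
  intro f
  rw [mul_apply_eq_comp, mul_apply_eq_comp]
  filter_upwards [U_ae η (P t f), P_ae t f, P_ae t (U η f), U_ae η f] with x h1 h2 h3 h4
  rw [h1, h2, h3, h4]
  by_cases ht : x ≤ t <;> simp [ht]

lemma U_mul (η η' : ℝ) : U η * U η' = U (η + η') := by
  apply ext_ae
  intro f
  rw [mul_apply_eq_comp]
  filter_upwards [U_ae η (U η' f), U_ae η' f, U_ae (η + η') f] with x h1 h2 h3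
  rw [h1, h2, h3, add_mul, ch_add, mul_assoc]

lemma U_zero : U 0 = 1 := by
  apply ext_ae
  intro f
  rw [one_apply_eq_self]
  filter_upwards [U_ae 0 f] with x h1
  rw [h1, zero_mul, ch_zero, one_mul]

lemma U_neg_mul (η : ℝ) : U (-η) * U η = 1 := by
  rw [U_mul, neg_add_cancel, U_zero]

lemma U_mul_neg (η : ℝ) : U η * U (-η) = 1 := by
  rw [U_mul, add_neg_cancel, U_zero]

lemma W_conj (η s : ℝ) : U (-η) * W s * U η = ch (η * s) • W s := by
  apply ext_ae
  intro f
  rw [mul_apply_eq_comp, mul_apply_eq_comp,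
    smul_apply]
  have h5 : ∀ᵐ x ∂(volume : Measure ℝ), U η f (x + s) =
      ch (η * (x + s)) * f (x + s) :=
    (measurePreserving_add_right volume s).quasiMeasurePreserving.ae (U_ae η f)
  filter_upwards [U_ae (-η) (W s (U η f)), W_ae s (U η f), h5, W_ae s f,
    Lp.coeFn_smul (ch (η * s)) (W s f)] with x h1 h2 h3 h4 h6
  rw [h1, h2, h3, h6, Pi.smul_apply, h4, mul_add, ch_add, smul_eq_mul]
  have : ch (-η * x) * ch (η * x) = 1 := by
    rw [neg_mul, ch_neg_mul]
  linear_combination ch (η * s) * f (x + s) * this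

lemma P_W_P (t s : ℝ) (hs : 0 ≤ s) : P t * W s * P t = W s * P t := by
  apply ext_ae
  intro f
  rw [mul_apply_eq_comp, mul_apply_eq_comp,
    mul_apply_eq_comp]
  have h5 : ∀ᵐ x ∂(volume : Measure ℝ), P t f (x + s) =
      if x + s ≤ t then f (x + s) else 0 :=
    (measurePreserving_add_right volume s).quasiMeasurePreserving.ae (P_ae t f)
  filter_upwards [P_ae t (W s (P t f)), W_ae s (P t f), h5] with x h1 h2 h3
  rw [h1, h2, h3]
  by_cases ht : x ≤ t
  · simp [ht]
  · have : ¬ (x + s ≤ t) := by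
      push Not at ht ⊢
      linarith
    simp [ht, this]

lemma W_tendsto (s : ℕ → ℝ) (hs : Tendsto s atTop (𝓝 0)) (f : K) :
    Tendsto (fun n => W (s n) f) atTop (𝓝 f) := by
  have hg : Tendsto (fun n => (⟨fun x : ℝ => x + s n, by fun_prop⟩ : C(ℝ, ℝ))) atTop
      (𝓝 (⟨fun x : ℝ => x + 0, by fun_prop⟩ : C(ℝ, ℝ))) := by
    have hc : Continuous (fun a : ℝ => (⟨fun x : ℝ => x + a, by fun_prop⟩ : C(ℝ, ℝ))) := by
      refine ContinuousMap.continuous_of_continuous_uncurry _ ?_
      change Continuous (fun p : ℝ × ℝ => p.2 + p.1)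
      fun_prop
    exact (hc.tendsto 0).comp hs
  have := Filter.Tendsto.compMeasurePreservingLp (p := 2) (tendsto_const_nhds (x := f)) hg
    (fun n => measurePreserving_add_right volume (s n))
    (measurePreserving_add_right volume 0) (by simp)
  have h0 : (Lp.compMeasurePreserving (fun x : ℝ => x + 0)
      (measurePreserving_add_right volume 0)) f = f := by
    apply Lp.ext
    filter_upwards [Lp.coeFn_compMeasurePreserving f (measurePreserving_add_right volume 0)]
      with x hx
    rw [hx]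
    simp
  change Tendsto _ atTop (𝓝 ((Lp.compMeasurePreserving (fun x : ℝ => x + 0)
      (measurePreserving_add_right volume 0)) f)) at this
  rw [h0] at this
  exact this

lemma U_weak (x y : K) : Tendsto (fun η : ℝ => ⟪x, U η y⟫_ℂ) (cocompact ℝ) (𝓝 0) := by
  have h := Real.tendsto_integral_exp_smul_cocompact
    (fun v : ℝ => (starRingEnd ℂ) (x v) * y v)
  have hneg : Tendsto (fun η : ℝ => -η) (cocompact ℝ) (cocompact ℝ) :=
    (Homeomorph.neg ℝ).isClosedEmbedding.tendsto_cocompact
  have h2 := h.comp hneg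
  refine h2.congr (fun η => ?_)
  rw [L2.inner_def]
  simp only [Function.comp]
  apply integral_congr_ae
  filter_upwards [U_ae η y] with v hv
  rw [hv]
  simp only [mul_neg, neg_neg, RCLike.inner_apply]
  rw [mul_comm v η, Circle.smul_def, smul_eq_mul, ch_eq]
  ring

end Pool.Agent.Helper56
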