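import Pool.Agent.Helper56.L2Ops
import Pool.Agent.Helper56.Commutant

set_option autoImplicit false

open MeasureTheory ENNReal Filter Topology
open scoped InnerProductSpace

noncomputable section

namespace Pool.Agent.Helper56

lemma star_P (t : ℝ) : star (P t) = P t := by
  rw [ContinuousLinearMap.star_eq_adjoint]
  symm
  rw [ContinuousLinearMap.eq_adjoint_iff]
  intro x y
  rw [L2.inner_def, L2.inner_def]
  apply integral_congr_ae
  filter_upwards [P_ae t x, P_ae t y] with v h1 h2
  rw [h1, h2]
  by_cases h : v ≤ t <;> simp [h]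

lemma star_U (η : ℝ) : star (U η) = U (-η) := by
  rw [ContinuousLinearMap.star_eq_adjoint]
  symm
  rw [ContinuousLinearMap.eq_adjoint_iff]
  intro x y
  rw [L2.inner_def, L2.inner_def]
  apply integral_congr_ae
  filter_upwards [U_ae (-η) x, U_ae η y] with v h1 h2
  rw [h1, h2]
  have hc : (starRingEnd ℂ) (ch (-η * v)) = ch (η * v) := by
    rw [ch, ch, ← Complex.exp_conj]
    congr 1
    simp only [map_mul, Complex.conj_ofReal, Complex.conj_I, map_ofNat]
    push_cast
    ring
  simp only [RCLike.inner_apply, map_mul, hc]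
  ring

/-- A cyclic vector. -/
lemma memLp_gauss : MemLp (fun x : ℝ => (Real.exp (-x ^ 2) : ℂ)) 2 (volume : Measure ℝ) := by
  rw [memLp_two_iff_integrable_sq_norm]
  · have h := integrable_exp_neg_mul_sq (b := 2) (by norm_num)
    refine h.congr (ae_of_all _ (fun x => ?_))
    simp only [Complex.norm_real, Real.norm_eq_abs, Real.abs_exp]
    rw [← Real.exp_nat_mul]
    congr 1
    push_cast
    ring
  · apply Continuous.aestronglyMeasurable
    fun_prop

def gau : K := memLp_gauss.toLp _

lemma gau_ae : gau =ᵐ[volume] fun x : ℝ => (Real.exp (-x ^ 2) : ℂ) := memLp_gauss.coeFn_toLp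

lemma eq_zero_of_iic (F : ℝ → ℂ) (hF : Integrable F) (h : ∀ t : ℝ, ∫ x in Set.Iic t, F x = 0) :
    F =ᵐ[volume] 0 := by
  have huniv : ∫ x, F x = 0 := by
    have h1 : Tendsto (fun n : ℕ => ∫ x in Set.Iic (n : ℝ), F x) atTop (𝓝 (∫ x, F x)) := by
      have hmono : Monotone (fun n : ℕ => Set.Iic (n : ℝ)) := fun a b hab =>
        Set.Iic_subset_Iic.2 (by exact_mod_cast hab)
      have hU : (⋃ n : ℕ, Set.Iic (n : ℝ)) = Set.univ := by
        ext x
        simp only [Set.mem_iUnion, Set.mem_Iic, Set.mem_univ, iff_true]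
        exact exists_nat_ge x
      have := tendsto_setIntegral_of_monotone (μ := volume) (f := F)
        (fun n : ℕ => (measurableSet_Iic : MeasurableSet (Set.Iic (n : ℝ)))) hmono
        hF.integrableOn
      rwa [hU, setIntegral_univ] at this
    simp only [h] at h1
    exact (tendsto_nhds_unique h1 tendsto_const_nhds)
  refine Integrable.ae_eq_zero_of_forall_setIntegral_eq_zero hF ?_
  intro s hs _
  refine MeasurableSpace.induction_on_inter (C := fun s _ => ∫ x in s, F x = 0)
    (by rw [← borel_eq_generateFrom_Iic]; exact BorelSpace.measurable_eq) isPiSystem_Iic ?_ ?_ ?_ ?_ s hs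
  · simp
  · rintro t ⟨a, rfl⟩
    exact h a
  · intro t ht h1
    have := integral_add_compl ht hF
    rw [h1, zero_add, huniv] at this
    exact this
  · intro f hd hm h1
    rw [integral_iUnion hm hd hF.integrableOn]
    simp [h1]

lemma cyclic_gau (g : K) (h : ∀ t, ⟪P t gau, g⟫_ℂ = 0) : g = 0 := by
  have hint : Integrable (fun x : ℝ => (Real.exp (-x ^ 2) : ℂ) * g x) := by
    have h1 : Integrable (fun x : ℝ => ⟪gau x, g x⟫_ℂ) := L2.integrable_inner gau g
    refine h1.congr ?_
    filter_upwards [gau_ae] with x hx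
    rw [hx]
    simp only [RCLike.inner_apply, Complex.conj_ofReal]
    ring
  have h2 : (fun x : ℝ => (Real.exp (-x ^ 2) : ℂ) * g x) =ᵐ[volume] 0 := by
    apply eq_zero_of_iic _ hint
    intro t
    have := h t
    rw [L2.inner_def] at this
    rw [← this, ← integral_indicator measurableSet_Iic]
    apply integral_congr_ae
    filter_upwards [P_ae t gau, gau_ae] with x h1 h2
    rw [h1, h2]
    by_cases hx : x ≤ t
    · simp only [Set.indicator, Set.mem_Iic, hx, if_true, RCLike.inner_apply, Complex.conj_ofReal]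
      ring
    · simp [Set.indicator, hx]
  apply Lp.ext
  filter_upwards [h2, Lp.coeFn_zero ℂ 2 (volume : Measure ℝ)] with x hx hx0
  rw [hx0]
  simp only [Pi.zero_apply, mul_eq_zero] at hx ⊢
  rcases hx with hx | hx
  · exfalso
    have : Real.exp (-x ^ 2) ≠ 0 := Real.exp_ne_zero _
    exact this (by exact_mod_cast hx)
  · exact hx

/-- The commutant of the nest. -/
def D : Set (K →L[ℂ] K) := {X | ∀ t, X * P t = P t * X}

theorem D_comm (X Y : K →L[ℂ] K) (hX : X ∈ D) (hY : Y ∈ D) : X * Y = Y * X := by
  set A : Submodule ℂ (K →L[ℂ] K) := Submodule.span ℂ (Set.range P) with hA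
  have hX' : ∀ a ∈ A, X * a = a * X := by
    intro a ha
    induction ha using Submodule.span_induction with
    | mem x hx => obtain ⟨t, rfl⟩ := hx; exact hX t
    | zero => simp
    | add x y _ _ h1 h2 => rw [mul_add, add_mul, h1, h2]
    | smul c x _ h1 => rw [mul_smul_comm, smul_mul_assoc, h1]
  have hY' : ∀ a ∈ A, Y * a = a * Y := by
    intro a ha
    induction ha using Submodule.span_induction with
    | mem x hx => obtain ⟨t, rfl⟩ := hx; exact hY t
    | zero => simp
    | add x y _ _ h1 h2 => rw [mul_add, add_mul, h1, h2]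
    | smul c x _ h1 => rw [mul_smul_comm, smul_mul_assoc, h1]
  refine comm_of_cyclic A ?_ ?_ ?_ gau ?_ X Y hX' hY'
  · intro a ha b hb
    induction ha using Submodule.span_induction with
    | mem x hx =>
      obtain ⟨t, rfl⟩ := hx
      induction hb using Submodule.span_induction with
      | mem y hy =>
        obtain ⟨s, rfl⟩ := hy
        rw [P_mul_P]
        exact Submodule.subset_span ⟨_, rfl⟩
      | zero => simp
      | add x y _ _ h1 h2 => rw [mul_add]; exact A.add_mem h1 h2
      | smul c x _ h1 => rw [mul_smul_comm]; exact A.smul_mem _ h1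
    | zero => simp
    | add x y _ _ h1 h2 => rw [add_mul]; exact A.add_mem h1 h2
    | smul c x _ h1 => rw [smul_mul_assoc]; exact A.smul_mem _ h1
  · intro a ha
    induction ha using Submodule.span_induction with
    | mem x hx => obtain ⟨t, rfl⟩ := hx; rw [star_P]; exact Submodule.subset_span ⟨t, rfl⟩
    | zero => simp
    | add x y _ _ h1 h2 => rw [star_add]; exact A.add_mem h1 h2
    | smul c x _ h1 => rw [star_smul]; exact A.smul_mem _ h1
  · intro a ha b hb
    induction ha using Submodule.span_induction with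
    | mem x hx =>
      obtain ⟨t, rfl⟩ := hx
      induction hb using Submodule.span_induction with
      | mem y hy =>
        obtain ⟨s, rfl⟩ := hy
        rw [P_mul_P, P_mul_P, min_comm]
      | zero => simp
      | add x y _ _ h1 h2 => rw [mul_add, add_mul, h1, h2]
      | smul c x _ h1 => rw [mul_smul_comm, smul_mul_assoc, h1]
    | zero => simp
    | add x y _ _ h1 h2 => rw [mul_add, add_mul, h1, h2]
    | smul c x _ h1 => rw [mul_smul_comm, smul_mul_assoc, h1]
  · rw [Submodule.topologicalClosure_eq_top_iff, Submodule.eq_bot_iff]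
    intro g hg
    apply cyclic_gau
    intro t
    rw [Submodule.mem_orthogonal] at hg
    exact hg _ ⟨P t, Submodule.subset_span ⟨t, rfl⟩, rfl⟩

lemma P_mem_D (t : ℝ) : P t ∈ D := by
  intro s
  rw [P_mul_P, P_mul_P, min_comm]

lemma U_mem_D (η : ℝ) : U η ∈ D := fun t => U_comm_P η t

lemma one_mem_D : (1 : K →L[ℂ] K) ∈ D := fun t => by simp

lemma star_mem_D {X : K →L[ℂ] K} (hX : X ∈ D) : star X ∈ D := by
  intro t
  have := congrArg star (hX t)
  rw [star_mul, star_mul, star_P] at this
  exact this.symm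

lemma mul_mem_D {X Y : K →L[ℂ] K} (hX : X ∈ D) (hY : Y ∈ D) : X * Y ∈ D := by
  intro t
  rw [mul_assoc, hY t, ← mul_assoc, hX t, mul_assoc]

lemma add_mem_D {X Y : K →L[ℂ] K} (hX : X ∈ D) (hY : Y ∈ D) : X + Y ∈ D := by
  intro t
  rw [add_mul, mul_add, hX t, hY t]

lemma mem_D_of_comm {X : K →L[ℂ] K} (h : ∀ Y ∈ D, X * Y = Y * X) : X ∈ D :=
  fun t => h _ (P_mem_D t)

lemma gau_ne_zero : gau ≠ 0 := by
  intro h
  have h1 : ∀ g : K, g = 0 := fun g => cyclic_gau g (fun t => by rw [h]; simp)
  have h2 := gau_ae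
  rw [h] at h2
  have h3 : ∀ᵐ x ∂(volume : Measure ℝ), False := by
    filter_upwards [h2, Lp.coeFn_zero ℂ 2 (volume : Measure ℝ)] with x hx hx0
    rw [hx0, Pi.zero_apply] at hx
    have : Real.exp (-x ^ 2) ≠ 0 := Real.exp_ne_zero _
    exact this (by exact_mod_cast hx.symm)
  have h4 : (volume : Measure ℝ) = 0 := by simpa using h3
  exact NeZero.ne (volume : Measure ℝ) h4

instance : Nontrivial K := ⟨⟨gau, 0, gau_ne_zero⟩⟩

end Pool.Agent.Helper56
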