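import Pool.Agent.Helper56.L2Ops

set_option autoImplicit false

open Filter Topology
open scoped Nat

noncomputable section

namespace Pool.Agent.Helper56

/-- Indicator of the integers with first coordinate `j` under the pairing function. -/
def ep (j m : ℕ) : ℝ := if (Nat.unpair m).1 = j then 1 else 0

lemma ep_nonneg (j m : ℕ) : 0 ≤ ep j m := by unfold ep; split_ifs <;> norm_num

lemma ep_le (j m : ℕ) : ep j m ≤ 1 := by unfold ep; split_ifs <;> norm_num

/-- The shifts. -/
def sh (j : ℕ) : ℝ := ∑' m : ℕ, ep j m * (1 / (m ! : ℝ))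

lemma summable_fac : Summable (fun m : ℕ => (1 / (m ! : ℝ))) := by
  have := Real.summable_pow_div_factorial 1
  simpa using this

lemma summable_sh (j : ℕ) : Summable (fun m : ℕ => ep j m * (1 / (m ! : ℝ))) := by
  refine Summable.of_nonneg_of_le (fun m => mul_nonneg (ep_nonneg j m) (by positivity))
    (fun m => ?_) summable_fac
  exact mul_le_of_le_one_left (by positivity) (ep_le j m)

lemma sh_nonneg (j : ℕ) : 0 ≤ sh j :=
  tsum_nonneg (fun m => mul_nonneg (ep_nonneg j m) (by positivity))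

lemma sh_tendsto : Tendsto sh atTop (𝓝 0) := by
  have h := tendsto_tsum_of_dominated_convergence (𝓕 := atTop)
    (f := fun j m : ℕ => ep j m * (1 / (m ! : ℝ))) (g := fun _ => (0 : ℝ))
    (bound := fun m : ℕ => (1 / (m ! : ℝ))) summable_fac ?_ ?_
  · rw [tsum_zero] at h
    exact h
  · intro m
    apply tendsto_const_nhds.congr'
    filter_upwards [eventually_gt_atTop (Nat.unpair m).1] with j hj
    have : ep j m = 0 := by
      unfold ep
      rw [if_neg (by omega)]
    rw [this, zero_mul]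
  · filter_upwards with j m
    rw [Real.norm_of_nonneg (mul_nonneg (ep_nonneg j m) (by positivity))]
    exact mul_le_of_le_one_left (by positivity) (ep_le j m)

lemma ch_nat (n : ℕ) : ch n = 1 := by
  rw [ch, Complex.exp_eq_one_iff]
  exact ⟨n, by push_cast; ring⟩

/-- The basic congruence: multiplying a shift by `b (N-1)!` gives an integer plus a controlled
remainder. -/
lemma sh_expand (j N b : ℕ) (hN : 1 ≤ N) (hb : b ≤ N) :
    ∃ (z : ℕ) (R : ℝ), 0 ≤ R ∧ R ≤ 2 / (N + 1) ∧
      ((b : ℝ) * ((N - 1)! : ℝ)) * sh j = z + (ep j N * ((b : ℝ) / N) + R) := by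
  have hsum := (summable_sh j)
  have hsplit := hsum.sum_add_tsum_nat_add (N + 1)
  set c : ℝ := (b : ℝ) * ((N - 1)! : ℝ) with hc
  have hc0 : 0 ≤ c := by positivity
  -- integer part
  have hint : ∃ z : ℕ, c * (∑ m ∈ Finset.range N, ep j m * (1 / (m ! : ℝ))) = z := by
    refine ⟨∑ m ∈ Finset.range N, if (Nat.unpair m).1 = j then b * ((N - 1)! / m !) else 0, ?_⟩
    rw [Finset.mul_sum]
    push_cast
    apply Finset.sum_congr rfl
    intro m hm
    rw [Finset.mem_range] at hm
    have hdvd : m ! ∣ (N - 1)! := Nat.factorial_dvd_factorial (by omega)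
    unfold ep
    split_ifs with h
    · rw [Nat.cast_div hdvd (by positivity)]
      rw [hc]
      ring
    · simp
  obtain ⟨z, hz⟩ := hint
  refine ⟨z, c * (∑' i : ℕ, ep j (i + (N + 1)) * (1 / ((i + (N + 1))! : ℝ))), ?_, ?_, ?_⟩
  · apply mul_nonneg hc0
    exact tsum_nonneg (fun m => mul_nonneg (ep_nonneg j _) (by positivity))
  · -- bound
    have hbd : ∀ i : ℕ, c * (ep j (i + (N + 1)) * (1 / ((i + (N + 1))! : ℝ))) ≤
        (1 / ((N : ℝ) + 1)) * (1 / 2) ^ i := by
      intro i
      have h1 : c ≤ (N ! : ℝ) := by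
        rw [hc, ← Nat.mul_factorial_pred (by omega : N ≠ 0)]
        push_cast
        have : (b : ℝ) ≤ N := by exact_mod_cast hb
        exact mul_le_mul_of_nonneg_right this (by positivity)
      have h2 : (N ! : ℝ) * ((N : ℝ) + 1) ^ (i + 1) ≤ ((i + (N + 1))! : ℝ) := by
        have := Nat.factorial_mul_pow_le_factorial (m := N) (n := i + 1)
        have h3 : N + (i + 1) = i + (N + 1) := by ring
        rw [h3] at this
        exact_mod_cast this
      have h4 : ((N : ℝ) + 1) * 2 ^ i ≤ ((N : ℝ) + 1) ^ (i + 1) := by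
        rw [pow_succ, mul_comm]
        apply mul_le_mul_of_nonneg_right _ (by positivity)
        apply pow_le_pow_left₀ (by norm_num)
        have : (1 : ℝ) ≤ N := by exact_mod_cast hN
        linarith
      have hf : (0 : ℝ) < ((i + (N + 1))! : ℝ) := by positivity
      have hNf : (0 : ℝ) < (N ! : ℝ) := by positivity
      calc c * (ep j (i + (N + 1)) * (1 / ((i + (N + 1))! : ℝ)))
          ≤ (N ! : ℝ) * (1 * (1 / ((i + (N + 1))! : ℝ))) := by
            apply mul_le_mul h1 _ _ hNf.le
            · exact mul_le_mul_of_nonneg_right (ep_le _ _) (by positivity)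
            · exact mul_nonneg (ep_nonneg _ _) (by positivity)
        _ = (N ! : ℝ) / ((i + (N + 1))! : ℝ) := by ring
        _ ≤ 1 / (((N : ℝ) + 1) * 2 ^ i) := by
            rw [div_le_div_iff₀ hf (by positivity), one_mul]
            calc (N ! : ℝ) * (((N : ℝ) + 1) * 2 ^ i) ≤ (N ! : ℝ) * ((N : ℝ) + 1) ^ (i + 1) :=
                  mul_le_mul_of_nonneg_left h4 hNf.le
              _ ≤ _ := h2
        _ = (1 / ((N : ℝ) + 1)) * (1 / 2) ^ i := by
            rw [one_div_pow]
            field_simp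
    have hs : Summable (fun i : ℕ => c * (ep j (i + (N + 1)) * (1 / ((i + (N + 1))! : ℝ)))) :=
      (((summable_nat_add_iff (N + 1)).2 hsum)).mul_left c
    have hg : Summable (fun i : ℕ => (1 / ((N : ℝ) + 1)) * (1 / 2 : ℝ) ^ i) :=
      summable_geometric_two.mul_left _
    rw [← tsum_mul_left]
    calc _ ≤ ∑' i : ℕ, (1 / ((N : ℝ) + 1)) * (1 / 2 : ℝ) ^ i := hs.tsum_le_tsum hbd hg
      _ = 2 / ((N : ℝ) + 1) := by
          rw [tsum_mul_left, tsum_geometric_two]
          ring
  · have hNf : ((N ! : ℕ) : ℝ) = N * ((N - 1)! : ℝ) := by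
      rw [← Nat.mul_factorial_pred (by omega : N ≠ 0)]
      push_cast
      ring
    have hN0 : (N : ℝ) ≠ 0 := by positivity
    have hN1 : ((N - 1)! : ℝ) ≠ 0 := by positivity
    have : c * (ep j N * (1 / (N ! : ℝ))) = ep j N * ((b : ℝ) / N) := by
      rw [hc, hNf]
      field_simp
    rw [sh, ← hsplit, Finset.sum_range_succ, mul_add, mul_add, hz, this]
    ring

/-- The phase lemma. -/
theorem phases (n : ℕ) (θ : ℝ) (h0 : 0 ≤ θ) (h1 : θ < 1) :
    ∃ η : ℕ → ℝ, Tendsto η atTop atTop ∧
      (∀ j, j ≠ n → Tendsto (fun l => ch (η l * sh j)) atTop (𝓝 1)) ∧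
      Tendsto (fun l => ch (η l * sh n)) atTop (𝓝 (ch θ)) := by
  set N : ℕ → ℕ := fun l => Nat.pair n (l + 1) with hN
  have hNl : ∀ l, l + 1 ≤ N l := fun l => Nat.right_le_pair n (l + 1)
  have hNt : Tendsto (fun l => (N l : ℝ)) atTop atTop := by
    apply tendsto_natCast_atTop_atTop.comp
    exact tendsto_atTop_mono (fun l => (Nat.le_succ l).trans (hNl l)) tendsto_id
  set b : ℕ → ℕ := fun l => ⌊θ * N l⌋₊ + 1 with hb
  have hNpos : ∀ l, (0 : ℝ) < N l := fun l => by
    have := hNl l
    exact_mod_cast (by omega : 0 < N l)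
  have hbN : ∀ l, b l ≤ N l := by
    intro l
    have : ⌊θ * N l⌋₊ < N l := by
      rw [Nat.floor_lt (by positivity)]
      have := mul_lt_mul_of_pos_right h1 (hNpos l)
      rwa [one_mul] at this
    exact this
  have hex : ∀ (l j : ℕ), ∃ (z : ℕ) (R : ℝ), 0 ≤ R ∧ R ≤ 2 / ((N l : ℝ) + 1) ∧
      ((b l : ℝ) * ((N l - 1)! : ℝ)) * sh j = z + (ep j (N l) * ((b l : ℝ) / N l) + R) :=
    fun l j => sh_expand j (N l) (b l) (by have := hNl l; omega) (hbN l)
  choose z R hR0 hR1 hexp using hex
  have hRt : ∀ j, Tendsto (fun l => R l j) atTop (𝓝 0) := by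
    intro j
    have h2 : Tendsto (fun l => 2 / ((N l : ℝ) + 1)) atTop (𝓝 0) :=
      tendsto_const_nhds.div_atTop (tendsto_atTop_add_const_right _ _ hNt)
    exact squeeze_zero (fun l => hR0 l j) (fun l => hR1 l j) h2
  have hch : ∀ l j, ch (((b l : ℝ) * ((N l - 1)! : ℝ)) * sh j) =
      ch (ep j (N l) * ((b l : ℝ) / N l) + R l j) := by
    intro l j
    rw [hexp, ch_add, ch_nat, one_mul]
  refine ⟨fun l => (b l : ℝ) * ((N l - 1)! : ℝ), ?_, ?_, ?_⟩
  · have h3 : ∀ l : ℕ, (l : ℝ) ≤ (b l : ℝ) * ((N l - 1)! : ℝ) := by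
      intro l
      have e1 : l ≤ (N l - 1)! := by
        have := hNl l
        calc l ≤ N l - 1 := by omega
          _ ≤ (N l - 1)! := Nat.self_le_factorial _
      have e2 : 1 ≤ b l := by simp [hb]
      have : l ≤ b l * (N l - 1)! := by nlinarith
      exact_mod_cast this
    exact tendsto_atTop_mono h3 tendsto_natCast_atTop_atTop
  · intro j hj
    have h3 : ∀ l, ep j (N l) = 0 := by
      intro l
      unfold ep
      rw [hN]
      simp only [Nat.unpair_pair]
      rw [if_neg (Ne.symm hj)]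
    simp only [hch, h3, zero_mul, zero_add]
    have := (continuous_ch.tendsto 0).comp (hRt j)
    rwa [ch_zero] at this
  · have h3 : ∀ l, ep n (N l) = 1 := by
      intro l
      unfold ep
      rw [hN]
      simp
    simp only [hch, h3, one_mul]
    have h4 : Tendsto (fun l => (b l : ℝ) / N l) atTop (𝓝 θ) := by
      have h5 : Tendsto (fun l => θ + 1 / (N l : ℝ)) atTop (𝓝 (θ + 0)) :=
        tendsto_const_nhds.add (tendsto_const_nhds.div_atTop hNt)
      rw [add_zero] at h5
      refine tendsto_of_tendsto_of_tendsto_of_le_of_le tendsto_const_nhds h5 (fun l => ?_)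
        (fun l => ?_)
      · show θ ≤ (b l : ℝ) / N l
        rw [le_div_iff₀ (hNpos l)]
        have := (Nat.lt_floor_add_one (θ * N l)).le
        simpa [hb] using this
      · show (b l : ℝ) / N l ≤ θ + 1 / (N l : ℝ)
        rw [div_le_iff₀ (hNpos l), add_mul, one_div, inv_mul_cancel₀ (hNpos l).ne']
        have := Nat.floor_le (mul_nonneg h0 (hNpos l).le)
        simpa [hb] using this
    have h6 : Tendsto (fun l => (b l : ℝ) / N l + R l n) atTop (𝓝 (θ + 0)) := h4.add (hRt n)
    rw [add_zero] at h6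
    exact (continuous_ch.tendsto θ).comp h6

end Pool.Agent.Helper56
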