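import Pool.Agent.Helper56.Nest
import Pool.Agent.Helper56.Phases

set_option autoImplicit false

open MeasureTheory ENNReal Filter Topology
open scoped InnerProductSpace

noncomputable section

namespace Pool.Agent.Helper56

/-- Noncommutative polynomial maps with coefficients in the commutant of the nest. -/
def Pol : Subalgebra ℂ ((K →L[ℂ] K) → (K →L[ℂ] K)) :=
  Algebra.adjoin ℂ (insert id {q | ∃ d ∈ D, q = fun _ => d})

lemma id_mem_Pol : (id : (K →L[ℂ] K) → (K →L[ℂ] K)) ∈ Pol :=
  Algebra.subset_adjoin (Set.mem_insert _ _)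

lemma const_mem_Pol {d : K →L[ℂ] K} (hd : d ∈ D) :
    (fun _ => d : (K →L[ℂ] K) → (K →L[ℂ] K)) ∈ Pol :=
  Algebra.subset_adjoin (Set.mem_insert_of_mem _ ⟨d, hd, rfl⟩)

lemma Pol_induction {p : ((K →L[ℂ] K) → (K →L[ℂ] K)) → Prop}
    (hid : p id) (hconst : ∀ d ∈ D, p (fun _ => d))
    (hadd : ∀ q r, p q → p r → p (q + r)) (hmul : ∀ q r, p q → p r → p (q * r))
    {q : (K →L[ℂ] K) → (K →L[ℂ] K)} (hq : q ∈ Pol) : p q := by
  refine Algebra.adjoin_induction ?_ ?_ ?_ ?_ hq
  · intro x hx
    rcases hx with rfl | ⟨d, hd, rfl⟩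
    · exact hid
    · exact hconst d hd
  · intro r
    have : algebraMap ℂ ((K →L[ℂ] K) → (K →L[ℂ] K)) r =
        fun _ => algebraMap ℂ (K →L[ℂ] K) r := rfl
    rw [this]
    apply hconst
    intro t
    exact Algebra.commutes r (P t)
  · intro x y _ _ hx hy
    exact hadd x y hx hy
  · intro x y _ _ hx hy
    exact hmul x y hx hy

lemma U_comm_D (η : ℝ) {d : K →L[ℂ] K} (hd : d ∈ D) : U (-η) * d * U η = d := by
  rw [D_comm _ _ (U_mem_D (-η)) hd, mul_assoc, U_neg_mul, mul_one]

lemma Pol_conj {q : (K →L[ℂ] K) → (K →L[ℂ] K)} (hq : q ∈ Pol) (η : ℝ) (T : K →L[ℂ] K) :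
    q (U (-η) * T * U η) = U (-η) * q T * U η := by
  revert T
  refine Pol_induction (p := fun q => ∀ T, q (U (-η) * T * U η) = U (-η) * q T * U η)
    ?_ ?_ ?_ ?_ hq
  · intro T; rfl
  · intro d hd T
    exact (U_comm_D η hd).symm
  · intro q r hq hr T
    simp only [Pi.add_apply]
    rw [hq T, hr T, mul_add, add_mul]
  · intro q r hq hr T
    simp only [Pi.mul_apply]
    rw [hq T, hr T]
    calc U (-η) * q T * U η * (U (-η) * r T * U η)
        = U (-η) * q T * (U η * U (-η)) * r T * U η := by noncomm_ring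
      _ = U (-η) * (q T * r T) * U η := by rw [U_mul_neg]; noncomm_ring

lemma Pol_cont {q : (K →L[ℂ] K) → (K →L[ℂ] K)} (hq : q ∈ Pol) (T : ℕ → K →L[ℂ] K)
    (T' : K →L[ℂ] K) (C : ℝ) (hC : ∀ n, ‖T n‖ ≤ C)
    (h : ∀ x, Tendsto (fun n => T n x) atTop (𝓝 (T' x))) :
    (∃ C', ∀ n, ‖q (T n)‖ ≤ C') ∧ ∀ x, Tendsto (fun n => q (T n) x) atTop (𝓝 (q T' x)) := by
  refine Pol_induction (p := fun q => (∃ C', ∀ n, ‖q (T n)‖ ≤ C') ∧
    ∀ x, Tendsto (fun n => q (T n) x) atTop (𝓝 (q T' x))) ?_ ?_ ?_ ?_ hq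
  · exact ⟨⟨C, hC⟩, h⟩
  · intro d _
    exact ⟨⟨‖d‖, fun _ => le_rfl⟩, fun x => tendsto_const_nhds⟩
  · rintro q r ⟨⟨C1, h1⟩, h2⟩ ⟨⟨C3, h3⟩, h4⟩
    refine ⟨⟨C1 + C3, fun n => ?_⟩, fun x => ?_⟩
    · exact (norm_add_le _ _).trans (add_le_add (h1 n) (h3 n))
    · exact (h2 x).add (h4 x)
  · rintro q r ⟨⟨C1, h1⟩, h2⟩ ⟨⟨C3, h3⟩, h4⟩
    refine ⟨⟨C1 * C3, fun n => ?_⟩, fun x => ?_⟩
    · exact (norm_mul_le _ _).trans
        (mul_le_mul (h1 n) (h3 n) (norm_nonneg _) ((norm_nonneg _).trans (h1 n)))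
    · simp only [Pi.mul_apply, mul_apply_eq_comp]
      have h5 : Tendsto (fun n => q (T n) (r (T n) x - r T' x)) atTop (𝓝 0) := by
        have h6 : Tendsto (fun n => C1 * ‖r (T n) x - r T' x‖) atTop (𝓝 (C1 * 0)) :=
          (tendsto_iff_norm_sub_tendsto_zero.1 (h4 x)).const_mul C1
        rw [mul_zero] at h6
        refine squeeze_zero_norm (fun n => ?_) h6
        exact ((q (T n)).le_opNorm _).trans
          (mul_le_mul_of_nonneg_right (h1 n) (norm_nonneg _))
      have h7 := h5.add (h2 (r T' x))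
      rw [zero_add] at h7
      refine h7.congr (fun n => ?_)
      rw [map_sub, sub_add_cancel]

lemma Pol_diff {q : (K →L[ℂ] K) → (K →L[ℂ] K)} (hq : q ∈ Pol) (A B : K →L[ℂ] K) :
    Differentiable ℂ (fun z : ℂ => q (A + z • B)) := by
  refine Pol_induction (p := fun q => Differentiable ℂ (fun z : ℂ => q (A + z • B)))
    ?_ ?_ ?_ ?_ hq
  · simp only [id]
    fun_prop
  · intro d _
    exact differentiable_const _
  · intro q r hq hr
    exact hq.add hr
  · intro q r hq hr
    exact hq.mul hr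

/-- The absolutely convergent combinations of the translations. -/
def Tb (b : ℕ → ℂ) : K →L[ℂ] K := ∑' j, b j • W (sh j)

lemma summable_Tb {b : ℕ → ℂ} (hb : Summable (fun j => ‖b j‖)) :
    Summable (fun j => b j • W (sh j)) := by
  refine Summable.of_norm_bounded hb (fun j => ?_)
  rw [norm_smul]
  exact mul_le_of_le_one_right (norm_nonneg _) (norm_W_le _)

lemma norm_Tb_le {b : ℕ → ℂ} (hb : Summable (fun j => ‖b j‖)) : ‖Tb b‖ ≤ ∑' j, ‖b j‖ := by
  refine tsum_of_norm_bounded hb.hasSum (fun j => ?_)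
  rw [norm_smul]
  exact mul_le_of_le_one_right (norm_nonneg _) (norm_W_le _)

lemma Tb_conj {b : ℕ → ℂ} (hb : Summable (fun j => ‖b j‖)) (η : ℝ) :
    U (-η) * Tb b * U η = Tb (fun j => ch (η * sh j) * b j) := by
  unfold Tb
  have h1 := summable_Tb hb
  rw [← h1.tsum_mul_left, ← (h1.mul_left _).tsum_mul_right]
  congr 1
  ext1 j
  rw [mul_smul_comm, smul_mul_assoc, W_conj, smul_smul, mul_comm]

lemma Tb_tendsto {b : ℕ → ℕ → ℂ} {b' : ℕ → ℂ} {β : ℕ → ℝ} (hβ : Summable β)
    (h1 : ∀ l j, ‖b l j‖ ≤ β j) (h2 : ∀ j, Tendsto (fun l => b l j) atTop (𝓝 (b' j))) :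
    Tendsto (fun l => Tb (b l)) atTop (𝓝 (Tb b')) := by
  unfold Tb
  refine tendsto_tsum_of_dominated_convergence hβ (fun j => ?_) ?_
  · exact (h2 j).smul_const _
  · filter_upwards with l j
    rw [norm_smul]
    exact (mul_le_of_le_one_right (norm_nonneg _) (norm_W_le _)).trans (h1 l j)

lemma Tb_update {b : ℕ → ℂ} (hb : Summable (fun j => ‖b j‖)) (n : ℕ) (w : ℂ) :
    Tb (Function.update b n w) = Tb (Function.update b n 0) + w • W (sh n) := by
  have hb0 : Summable (fun j => ‖Function.update b n 0 j‖) := by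
    refine Summable.of_nonneg_of_le (fun j => norm_nonneg _) (fun j => ?_) hb
    by_cases h : j = n
    · subst h; simp
    · simp [Function.update_of_ne h]
  have h1 : HasSum (fun j => Function.update b n 0 j • W (sh j)) (Tb (Function.update b n 0)) :=
    (summable_Tb hb0).hasSum
  have h2 : HasSum (fun j => if j = n then w • W (sh n) else 0) (w • W (sh n)) :=
    hasSum_ite_eq n _
  have h3 := h1.add h2
  have h4 : (fun j => Function.update b n 0 j • W (sh j) + if j = n then w • W (sh n) else 0) =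
      fun j => Function.update b n w j • W (sh j) := by
    ext1 j
    by_cases h : j = n
    · subst h; simp
    · simp [h]
  rw [h4] at h3
  exact h3.tsum_eq

/-- Modulation invariance determines the polynomial: one coefficient may be changed freely. -/
theorem change_coeff {b : ℕ → ℂ} (hb : Summable (fun j => ‖b j‖)) {n : ℕ} (hn : b n ≠ 0)
    {q : (K →L[ℂ] K) → (K →L[ℂ] K)} (hq : q ∈ Pol) {f X : K →L[ℂ] K} (hX : X ∈ D)
    (hf : ∀ x, Tendsto (fun η : ℝ => f (U η x)) atTop (𝓝 0))
    (h : q (Tb b) + f = X) (z : ℂ) : q (Tb (Function.update b n z)) = X := by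
  -- values on the circle
  have hcirc : ∀ θ : ℝ, 0 ≤ θ → θ < 1 → q (Tb (Function.update b n (ch θ * b n))) = X := by
    intro θ h0 h1
    obtain ⟨η, hη, hj, hnn⟩ := phases n θ h0 h1
    set bl : ℕ → ℕ → ℂ := fun l j => ch (η l * sh j) * b j with hbl
    have hTl : Tendsto (fun l => Tb (bl l)) atTop
        (𝓝 (Tb (Function.update b n (ch θ * b n)))) := by
      refine Tb_tendsto hb (fun l j => ?_) (fun j => ?_)
      · rw [hbl]
        simp [norm_ch]
      · by_cases hjn : j = n
        · subst hjn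
          simp only [Function.update_self]
          exact hnn.mul_const _
        · rw [Function.update_of_ne hjn]
          have := (hj j hjn).mul_const (b j)
          rwa [one_mul] at this
    have hbound : ∀ l, ‖Tb (bl l)‖ ≤ ∑' j, ‖b j‖ := by
      intro l
      have h5 : (fun j => ‖bl l j‖) = fun j => ‖b j‖ := by
        ext1 j
        rw [hbl]
        simp [norm_ch]
      have := norm_Tb_le (b := bl l) (by rw [h5]; exact hb)
      rwa [h5] at this
    have hcont := (Pol_cont hq (fun l => Tb (bl l)) (Tb (Function.update b n (ch θ * b n)))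
      (∑' j, ‖b j‖) hbound (fun x => by
        have := (ContinuousLinearMap.apply ℂ K x).continuous.tendsto
          (Tb (Function.update b n (ch θ * b n)))
        exact this.comp hTl)).2
    ext1 x
    have hfx : Tendsto (fun l => (U (-(η l)) * f * U (η l)) x) atTop (𝓝 0) := by
      have h6 := (hf x).comp hη
      rw [tendsto_zero_iff_norm_tendsto_zero] at h6 ⊢
      refine h6.congr (fun l => ?_)
      simp only [Function.comp, mul_apply_eq_comp]
      have hiso : ∀ y, ‖U (-(η l)) y‖ = ‖y‖ := by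
        intro y
        have e1 : ⟪U (-(η l)) y, U (-(η l)) y⟫_ℂ = ⟪y, y⟫_ℂ := by
          have e2 : U (η l) = star (U (-(η l))) := by rw [star_U, neg_neg]
          have e3 : ⟪y, (star (U (-(η l)))) (U (-(η l)) y)⟫_ℂ =
              ⟪U (-(η l)) y, U (-(η l)) y⟫_ℂ := by
            rw [ContinuousLinearMap.star_eq_adjoint, ContinuousLinearMap.adjoint_inner_right]
          rw [← e3, ← e2]
          change ⟪y, (U (η l) * U (-(η l))) y⟫_ℂ = _
          rw [U_mul_neg]
          rfl
        rw [inner_self_eq_norm_sq_to_K, inner_self_eq_norm_sq_to_K] at e1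
        have e4 : ‖U (-(η l)) y‖ ^ 2 = ‖y‖ ^ 2 := by exact_mod_cast e1
        exact (sq_eq_sq₀ (norm_nonneg _) (norm_nonneg _)).1 e4
      exact (hiso _).symm
    have hsum := (hcont x).add hfx
    rw [add_zero] at hsum
    have hconst : ∀ l, q (Tb (bl l)) x + (U (-(η l)) * f * U (η l)) x = X x := by
      intro l
      have e1 : q (Tb (bl l)) = U (-(η l)) * q (Tb b) * U (η l) := by
        rw [← Pol_conj hq, Tb_conj hb]
      have e2 : q (Tb (bl l)) + U (-(η l)) * f * U (η l) = X := by
        rw [e1, ← add_mul, ← mul_add, h, U_comm_D _ hX]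
      rw [← e2]
      rfl
    have := hsum.congr hconst
    exact tendsto_nhds_unique this tendsto_const_nhds
  -- analytic continuation
  set F : ℂ → (K →L[ℂ] K) := fun w => q (Tb (Function.update b n 0) + w • W (sh n)) with hF
  have hFd : Differentiable ℂ F := Pol_diff hq _ _
  have hFe : F = fun _ => X := by
    refine AnalyticOnNhd.eq_of_frequently_eq (z₀ := b n)
      (fun w _ => hFd.analyticAt w) analyticOnNhd_const ?_
    have hseq : Tendsto (fun k : ℕ => ch (1 / ((k : ℝ) + 2)) * b n) atTop (𝓝[≠] (b n)) := by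
      rw [tendsto_nhdsWithin_iff]
      constructor
      · have h1 : Tendsto (fun k : ℕ => 1 / ((k : ℝ) + 2)) atTop (𝓝 0) :=
          tendsto_const_nhds.div_atTop
            (tendsto_atTop_add_const_right _ _ tendsto_natCast_atTop_atTop)
        have h2 := ((continuous_ch.tendsto 0).comp h1).mul_const (b n)
        rw [ch_zero, one_mul] at h2
        exact h2
      · filter_upwards with k
        simp only [Set.mem_compl_iff, Set.mem_singleton_iff]
        intro hk
        have h3 : ch (1 / ((k : ℝ) + 2)) = 1 := by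
          have := mul_right_cancel₀ hn (hk.trans (one_mul _).symm)
          exact this
        rw [ch, Complex.exp_eq_one_iff] at h3
        obtain ⟨m, hm⟩ := h3
        have h4 : (2 * (Real.pi : ℂ) * Complex.I) ≠ 0 := by
          simp [Real.pi_ne_zero, Complex.I_ne_zero]
        have h5 : (((1 / ((k : ℝ) + 2) : ℝ)) : ℂ) = (m : ℂ) := by
          apply mul_right_cancel₀ h4
          rw [← hm]
          ring
        have h6 : (1 / ((k : ℝ) + 2) : ℝ) = (m : ℝ) := by exact_mod_cast h5
        have h7 : (0 : ℝ) < 1 / ((k : ℝ) + 2) := by positivity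
        have h8 : 1 / ((k : ℝ) + 2) < 1 := by
          rw [div_lt_one (by positivity)]
          have : (0 : ℝ) ≤ k := Nat.cast_nonneg k
          linarith
        rw [h6] at h7 h8
        have h9 : 0 < m := by exact_mod_cast h7
        have h10 : m < 1 := by exact_mod_cast h8
        omega
    refine hseq.frequently (Frequently.of_forall (fun k => ?_))
    rw [hF]
    simp only
    rw [← Tb_update hb]
    apply hcirc
    · positivity
    · rw [div_lt_one (by positivity)]
      have : (0 : ℝ) ≤ k := Nat.cast_nonneg k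
      linarith
  have := congrFun hFe z
  rw [hF] at this
  simp only at this
  rw [Tb_update hb]
  exact this

/-- The weights. -/
def cf (j : ℕ) : ℂ := (1 / 4) * (1 / 2) ^ j

lemma norm_cf (j : ℕ) : ‖cf j‖ = (1 / 4) * (1 / 2) ^ j := by
  unfold cf
  rw [norm_mul, norm_pow]
  norm_num

lemma summable_cf : Summable (fun j => ‖cf j‖) := by
  simp only [norm_cf]
  exact summable_geometric_two.mul_left _

lemma cf_ne (j : ℕ) : cf j ≠ 0 := by
  unfold cf
  exact mul_ne_zero (by norm_num) (pow_ne_zero _ (by norm_num))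

/-- The operator `V`. -/
def V : K →L[ℂ] K := Tb cf

lemma norm_V_le : ‖V‖ ≤ 1 / 2 := by
  refine (norm_Tb_le summable_cf).trans ?_
  simp only [norm_cf]
  rw [tsum_mul_left, tsum_geometric_two]
  norm_num

/-- The truncated weights. -/
def ctail (n j : ℕ) : ℂ := if j < n then 0 else cf j

lemma norm_ctail_le (n j : ℕ) : ‖ctail n j‖ ≤ ‖cf j‖ := by
  unfold ctail
  split_ifs <;> simp

lemma summable_ctail (n : ℕ) : Summable (fun j => ‖ctail n j‖) :=
  Summable.of_nonneg_of_le (fun _ => norm_nonneg _) (norm_ctail_le n) summable_cf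

lemma ctail_update (n : ℕ) : Function.update (ctail n) n 0 = ctail (n + 1) := by
  ext1 j
  unfold ctail
  by_cases h : j = n
  · subst h; simp
  · rw [Function.update_of_ne h]
    have : j < n ↔ j < n + 1 := by omega
    simp [this]

theorem lemmaA {q : (K →L[ℂ] K) → (K →L[ℂ] K)} (hq : q ∈ Pol) {f X : K →L[ℂ] K} (hX : X ∈ D)
    (hf : ∀ x, Tendsto (fun η : ℝ => f (U η x)) atTop (𝓝 0))
    (h : q V + f = X) : q 1 = X := by
  have hf0 : ∀ x, Tendsto (fun η : ℝ => (0 : K →L[ℂ] K) (U η x)) atTop (𝓝 0) := by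
    intro x; simp
  have hc0 : ctail 0 = cf := by
    ext1 j; unfold ctail; simp
  have hA : ∀ n, q (Tb (ctail (n + 1))) = X := by
    intro n
    induction n with
    | zero =>
      have := change_coeff (n := 0) summable_cf (cf_ne 0) hq hX hf h 0
      rw [← ctail_update, hc0]
      exact this
    | succ n ih =>
      have h1 : ctail (n + 1) (n + 1) ≠ 0 := by
        unfold ctail; simp [cf_ne]
      have := change_coeff (n := n + 1) (summable_ctail (n + 1)) h1 hq hX hf0
        (by rw [ih, add_zero]) 0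
      rw [ctail_update] at this
      exact this
  have hB : ∀ n, q (Tb (ctail (n + 2)) + W (sh (n + 1))) = X := by
    intro n
    have h1 : ctail (n + 1) (n + 1) ≠ 0 := by
      unfold ctail; simp [cf_ne]
    have := change_coeff (n := n + 1) (summable_ctail (n + 1)) h1 hq hX hf0
        (by rw [hA n, add_zero]) 1
    rw [Tb_update (summable_ctail (n + 1)), ctail_update, one_smul] at this
    exact this
  have hT0 : Tendsto (fun n => Tb (ctail (n + 2))) atTop (𝓝 (Tb (fun _ => 0))) := by
    refine Tb_tendsto summable_cf (fun l j => norm_ctail_le _ _) (fun j => ?_)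
    apply tendsto_const_nhds.congr'
    filter_upwards [eventually_gt_atTop j] with l hl
    unfold ctail
    rw [if_pos (by omega)]
  have hz : Tb (fun _ => 0) = 0 := by unfold Tb; simp
  rw [hz] at hT0
  have hnorm : ∀ n, ‖Tb (ctail (n + 2)) + W (sh (n + 1))‖ ≤ (∑' j, ‖cf j‖) + 1 := by
    intro n
    refine (norm_add_le _ _).trans (add_le_add ?_ (norm_W_le _))
    exact (norm_Tb_le (summable_ctail _)).trans
      ((summable_ctail _).tsum_le_tsum (norm_ctail_le _) summable_cf)
  have hconv : ∀ x, Tendsto (fun n => (Tb (ctail (n + 2)) + W (sh (n + 1))) x) atTop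
      (𝓝 ((1 : K →L[ℂ] K) x)) := by
    intro x
    have h1 : Tendsto (fun n => (Tb (ctail (n + 2))) x) atTop (𝓝 ((0 : K →L[ℂ] K) x)) :=
      ((ContinuousLinearMap.apply ℂ K x).continuous.tendsto 0).comp hT0
    have h2 : Tendsto (fun n => W (sh (n + 1)) x) atTop (𝓝 x) :=
      W_tendsto (fun n => sh (n + 1)) ((tendsto_add_atTop_iff_nat 1).2 sh_tendsto) x
    have h3 := h1.add h2
    simpa using h3
  have hfin := (Pol_cont hq _ 1 _ hnorm hconv).2
  ext1 x
  have h4 := hfin x
  simp only [hB] at h4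
  exact tendsto_nhds_unique h4 tendsto_const_nhds |>.symm ▸ rfl

end Pool.Agent.Helper56
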